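import Pool.Agent.OGD.St
import Pool.Agent.PMC.ResT3

/-!
OGD: assembly (helper45).
-/

set_option autoImplicit false
set_option linter.unusedVariables false

namespace Pool.Agent.OGD

open FirstOrder FirstOrder.Language Set
open Pool.Agent.PMC (Sy LP ls us Two Bin)
open Pool.Agent.PMC.ResT3 (Dich FullVC)
open Pool.Agent.Helper6.Str (PerfK CtblK Iso Code toStr)
open VPF (ModF)

/-- the dichotomy in the form of `S14759` -/
theorem dich_iff {L : FirstOrder.Language.{0, 0}} (hF : ∀ n, IsEmpty (L.Functions n)) (T : L.Theory) :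
    Dich L T ↔ CtblK (ModF T) ∨ PerfK (ModF T) := by
  constructor
  · rintro (⟨g, hg⟩ | ⟨f, h1, h2, h3, _⟩)
    · exact Or.inl ⟨g, fun S hS => (hg S hS).imp fun n h => VPF.CC.iso_of_equiv h⟩
    · exact Or.inr ⟨f, h1, fun x y h => h2 x y (VPF.CC.equiv_of_iso h), h3⟩
  · rintro (⟨g, hg⟩ | ⟨f, h1, h2, h3⟩)
    · exact Or.inl ⟨g, fun S hS => (hg S hS).imp fun n h => VPF.CC.equiv_of_iso h⟩
    · exact Or.inr ⟨f, h1, fun x y h => h2 x y (VPF.CC.iso_of_equiv h), h3, fun n F => (hF n).elim F⟩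

theorem lp_rel (ι : Type) : ∀ n, IsEmpty ((LP ι).Functions n) := fun n => ⟨fun x => Empty.elim x⟩

section
variable (hSEP : St_SEP) (hCEL : St_CEL) (hUNA : St_UNA) (hUNB : St_UNB) (hGRW : St_GRW)
  (hFRM : St_FRM) (hTRN : St_TRN) (hCOE : St_COE) (hREC : St_REC) (hFUN : St_FUN) (hDMS : St_DMS)
  (hSHQ : St_SHQ) (hOGA : St_OGA)

include hSEP hCEL hUNA hUNB

/-- a uniform type for classes of unbounded grid rank -/
theorem typ_of (K : ∀ n : ℕ, Set (Fin n → Fin n → Prop)) (hK : Her K) (hb : ¬ Bdd K) :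
    ∃ τ, Good τ ∧ AgeN K τ := by
  obtain ⟨s, hs⟩ := hSEP K hb
  refine hUNB K hK fun k => ?_
  obtain ⟨N, hN⟩ := hUNA s k
  obtain ⟨N', hN'⟩ := hCEL s N
  obtain ⟨n, r, hr, hg⟩ := hs N'
  obtain ⟨e, he⟩ := hN' n r hg
  obtain ⟨τ, e', -, h⟩ := hN n r e he
  exact ⟨n, r, hr, τ, e', h⟩

include hGRW in
/-- slow growth -/
theorem bdd_of (K : ∀ n : ℕ, Set (Fin n → Fin n → Prop)) (hK : Her K) (n : ℕ)
    (hn : (K (4 * n)).ncard < n.factorial) : Bdd K := by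
  by_contra hb
  obtain ⟨τ, h1, h2⟩ := typ_of hSEP hCEL hUNA hUNB K hK hb
  exact absurd (hGRW K τ h1 h2 n) (not_le.2 hn)

include hFRM hTRN hCOE hREC hFUN hDMS hSHQ in
/-- the sharp half -/
theorem full_of (K : ∀ n : ℕ, Set (Fin n → Fin n → Prop)) (hK : Her K) (hb : ¬ Bdd K)
    (h : VCK K) : FullVC := by
  obtain ⟨τ, h1, h2⟩ := typ_of hSEP hCEL hUNA hUNB K hK hb
  refine PMC.ResT3.full_of_vc fun ι hι T hT => ?_
  exact (dich_iff (lp_rel ι) T).2 (hSHQ hFRM hTRN hCOE hREC hFUN hDMS PMC.thm_MPK K τ h1 h2 h ι hι T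
    fun S hS => (hT S hS).1)

end

theorem vck_of_full (K : ∀ n : ℕ, Set (Fin n → Fin n → Prop)) (h : FullVC) : VCK K :=
  fun ι hι T _ => (dich_iff (lp_rel ι) T).1 (h (LP ι) (PMC.ResT3.countable_LP ι hι) T)

end Pool.Agent.OGD
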