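import Pool.Agent.PMC.ResT3

/-!
OGD: renaming the symbols of a relational language (helper45).
-/

set_option autoImplicit false

namespace Pool.Agent.OGD

open FirstOrder FirstOrder.Language Set
open Pool.Agent.Helper6.Str (PerfK CtblK Iso)
open VPF (ModF)

section
variable {L L' : FirstOrder.Language.{0, 0}} (hF : ∀ n, IsEmpty (L.Functions n))
  (hF' : ∀ n, IsEmpty (L'.Functions n)) (e : ∀ n, L.Relations n ≃ L'.Relations n)

/-- the renaming -/
def Ren_hom : L →ᴸ L' := ⟨fun n f => (hF n).elim f, fun n R => e n R⟩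

/-- the structure with the old names -/
@[instance_reducible]
def Ren_old (S : L'.Structure ℕ) : L.Structure ℕ where
  funMap := fun {n} f _ => (hF n).elim f
  RelMap := fun {n} R v => S.RelMap (e n R) v

/-- the structure with the new names -/
@[instance_reducible]
def Ren_new (S : L.Structure ℕ) : L'.Structure ℕ where
  funMap := fun {n} f _ => (hF' n).elim f
  RelMap := fun {n} R v => S.RelMap ((e n).symm R) v

theorem Ren_model (T : L.Theory) (S : L'.Structure ℕ) :
    @FirstOrder.Language.Theory.Model L' ℕ S ((Ren_hom hF e).onTheory T) ↔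
      @FirstOrder.Language.Theory.Model L ℕ (Ren_old hF e S) T := by
  let _ := S
  let _ := Ren_old hF e S
  have : (Ren_hom hF e).IsExpansionOn ℕ :=
    { map_onFunction := fun {n} f _ => (hF n).elim f
      map_onRelation := fun {n} R v => rfl }
  exact LHom.onTheory_model (Ren_hom hF e) T

theorem Ren_iso_old {S S' : L'.Structure ℕ} (h : Iso S S') :
    Iso (Ren_old hF e S) (Ren_old hF e S') := by
  obtain ⟨g, hg⟩ := h
  exact ⟨g, fun n R v => hg n (e n R) v⟩

theorem Ren_iso_new {S S' : L.Structure ℕ} (h : Iso S S') :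
    Iso (Ren_new hF' e S) (Ren_new hF' e S') := by
  obtain ⟨g, hg⟩ := h
  exact ⟨g, fun n R v => hg n ((e n).symm R) v⟩

theorem Ren_on (S : L.Structure ℕ) : Iso (Ren_old hF e (Ren_new hF' e S)) S := by
  refine ⟨Equiv.refl ℕ, fun n R v => ?_⟩
  show S.RelMap ((e n).symm (e n R)) v ↔ S.RelMap R v
  rw [Equiv.symm_apply_apply]

theorem Ren_no (S : L'.Structure ℕ) : Iso (Ren_new hF' e (Ren_old hF e S)) S := by
  refine ⟨Equiv.refl ℕ, fun n R v => ?_⟩
  show S.RelMap (e n ((e n).symm R)) v ↔ S.RelMap R v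
  rw [Equiv.apply_symm_apply]

include hF in
theorem Ren_modF {T : L.Theory} {S S' : L.Structure ℕ} (h : Iso S S') (hS : S ∈ ModF T) :
    S' ∈ ModF T :=
  PMC.SHP_model hF h T hS

include hF hF' in
theorem Ren_new_mem {T : L.Theory} {S : L.Structure ℕ} (hS : S ∈ ModF T) :
    Ren_new hF' e S ∈ ModF ((Ren_hom hF e).onTheory T) :=
  (Ren_model hF e T _).2 (Ren_modF hF (Ren_on hF hF' e S).symm hS)

include hF hF' in
/-- the dichotomy does not depend on the names of the symbols -/
theorem Ren_dich (T : L.Theory) (h : CtblK (ModF ((Ren_hom hF e).onTheory T)) ∨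
    PerfK (ModF ((Ren_hom hF e).onTheory T))) : CtblK (ModF T) ∨ PerfK (ModF T) := by
  rcases h with ⟨g, hg⟩ | ⟨f, h1, h2, h3⟩
  · refine Or.inl ⟨fun n => Ren_old hF e (g n), fun S hS => ?_⟩
    obtain ⟨n, hn⟩ := hg _ (Ren_new_mem hF hF' e hS)
    exact ⟨n, (Ren_on hF hF' e S).symm.trans (Ren_iso_old hF e hn)⟩
  · refine Or.inr ⟨fun x => Ren_old hF e (f x), fun x => (Ren_model hF e T _).1 (h1 x),
      fun x y h => h2 x y ?_, fun n R a => h3 n (e n R) a⟩
    exact ((Ren_no hF hF' e (f x)).symm.trans (Ren_iso_new hF' e h)).trans (Ren_no hF hF' e (f y))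

end

end Pool.Agent.OGD
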