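import Pool.Agent.OGD.Defs

/-!
OGD: statements (helper45), with proofs in the docstrings.  See `GC_OGD_helper45.md` in the team store.
-/

set_option autoImplicit false
set_option linter.unusedVariables false

namespace Pool.Agent.OGD

open FirstOrder.Language Set
open scoped FirstOrder
open Pool.Agent.PMC (Sy LP ls us Two Bin)
open Pool.Agent.Helper6.Str (PerfK CtblK Iso Code toStr)
open VPF (ModF)

/-! ### Combinatorics -/

/-- [SEP] one side occurs for all sizes.
PROOF.  `¬ Bdd K`: for all `k` there are `n`, `r ∈ K n` with `Grid r (2 k + 2)`, by `I`, `J`.  `I k`, `J k` are nonempty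
(`Ric` gives different `y 0`, `y 1`, so elements): `u ∈ I k`, `v ∈ J k`.  If `u ≤ v`: the rows `I 0, .., I (k - 1)` and the
columns `J (k + 1), .., J (2 k)` are a grid of size `k` with `s = true` (`x < u ≤ v < y`).  If `v < u`: the rows
`I (k + 1), ..`, the columns `J 0, .., J (k - 1)`, `s = false`.  (Smaller grids: compose with an embedding of
`Fin k`, the `y`'s too.)  So for all `k` there is `s` with (∃ n r, SGrid s r k); `SGrid s r k` is antitone in `k`; if
`true` failed for `k₁` and `false` for `k₂` then `max k₁ k₂` gives a contradiction. -/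
def St_SEP : Prop :=
  ∀ (K : ∀ n : ℕ, Set (Fin n → Fin n → Prop)), ¬ Bdd K →
    ∃ s, ∀ k, ∃ n, ∃ r ∈ K n, SGrid s r k

/-- [CEA] one new cell.  `EX`: earlier rows, `EY`: earlier columns.
PROOF.  Let `Y₁ ⊆ Y` be the largest class of elements of `Y` with the same trace on `EX` (at most `2 ^ |EX|` traces,
subsets of `EX`): `2 ^ (2 ^ |EY|) < |Y₁|` (`Finset.exists_lt_card_fiber_of_mul_lt_card_of_maps_to`).  For `c : Finset M`,
`c ⊆ EY`, let `C c = {x ∈ I | EY.filter (r x) = c}` (classes of rows).  If for every `c` the elements of `Y₁` had at most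
two different traces on `C c` then the map `y ↦ (c ↦ trace of y on C c)` is injective on `Y₁` (the traces on `I` are
different) with values in a product of `2 ^ |EY|` sets with at most two elements: `|Y₁| ≤ 2 ^ (2 ^ |EY|)`, a
contradiction.  So there are `c` and `y₁, y₂, y₃ ∈ Y₁` with pairwise different traces on `C c`.  Two of them, `y`, `y'`, are
not complementary on `C c` (if `y₁, y₂` and `y₁, y₃` are complementary then `y₂`, `y₃` have the same trace).  So there is
`x ∈ C c` with `¬ (r x y ↔ r x y')` and `x' ∈ C c` with `r x' y ↔ r x' y'`. -/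
def St_CEA : Prop :=
  ∀ (M : Type) (r : M → M → Prop) (I : Set M) (EX EY Y : Finset M),
    (∀ y ∈ Y, ∀ y' ∈ Y, y ≠ y' → ∃ x ∈ I, ¬ (r x y ↔ r x y')) →
    2 ^ EX.card * 2 ^ (2 ^ EY.card) < Y.card →
    ∃ x ∈ I, ∃ x' ∈ I, ∃ y ∈ Y, ∃ y' ∈ Y, (∀ z ∈ EX, r z y ↔ r z y') ∧
      (∀ z ∈ EY, r x z ↔ r x' z) ∧ ¬ (r x y ↔ r x y') ∧ (r x' y ↔ r x' y')

/-- [CEL] all cells.
PROOF.  `N = k + 2 ^ (2 k²) * 2 ^ (2 ^ (2 k²)) + 1`; rows `I a`, columns `J b` for `a, b < k ≤ N`; `Y (a, b)` = the range of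
`y : Fin N → Fin n` from `Ric` (`N` elements of `J b`, `y` is injective).  Induction over finite sets `s` of cells
(`Finset.induction_on`, `Finset (Fin k × Fin k)`): there are `e : Fin k → Fin k → Fin 4 → Fin n` with: for `c ∈ s`:
`e c 0, e c 1 ∈ I c.1`, `e c 2, e c 3 ∈ J c.2`, and `Phi r (e c) (e d) ↔ c = d` for `c, d ∈ s`.  New cell `c`: CEA for
`I c.1`, `EX = {e d 0, e d 1 | d ∈ s}`, `EY = {e d 2, e d 3 | d ∈ s}` (at most `2 k²` elements each).  `Phi r (e c) (e c)` is true,
`Phi r (e c) (e d)` is false (`x`, `x'` agree on `EY`), `Phi r (e d) (e c)` is false.  At the end exchange `e c 0` and `e c 1`, `e c 2`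
and `e c 3` if necessary (`Phi` is symmetric; they are different because `Phi r (e c) (e c)`). -/
def St_CEL : Prop :=
  ∀ (s : Bool) (k : ℕ), ∃ N, ∀ (n : ℕ) (r : Fin n → Fin n → Prop), SGrid s r N →
    ∃ e, Cel s r k e

/-- [RAM] product Ramsey theorem for pairs.
PROOF.  Ramsey's theorem for pairs with finitely many colours: `∀ C finite, n, ∃ k, ∀ c : Fin k → Fin k → C, ∃ f : Fin n → Fin k`
strictly monotone with `c (f i) (f j)` (`i < j`) constant (there are several proofs in the repository, e.g.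
`Pool/Agent/HER/RAM.lean`, `Pool/Agent/MST/RamF.lean`, `Pool/Agent/Helper18/EH/Ramsey.lean`).  Let `m` be its number for
`C`, `n`, and `k'` its number for the finite colour type `Fin m → Fin m → C` and `n`; `k = m + k'`.  Colour pairs `b < b'` of
`Fin k'` by `(a, a') ↦ c a a' b b'` (`a, a' < m`): `g : Fin n → Fin k'` with constant colour `F : Fin m → Fin m → C`; then `f : Fin n →
Fin m` for `F`. -/
def St_RAM : Prop :=
  ∀ (C : Type), Finite C → ∀ n : ℕ, ∃ k, ∀ c : Fin k → Fin k → Fin k → Fin k → C,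
    ∃ (f g : Fin n → Fin k) (F : C), StrictMono f ∧ StrictMono g ∧
      ∀ a a' b b', a < a' → b < b' → c (f a) (f a') (g b) (g b') = F

/-- [UNA] uniform boards.
PROOF.  RAM for `C = (Bool × Bool × Fin 4) → (Bool × Bool × Fin 4) → Bool` and `k + 1`; the colour of `a, a', b, b'` at
`(α, β, i)`, `(α', β', j)` is `decide (r (e x y i) (e x' y' j))`, where `x = a` if `α`, else `a'`; `y = b` if `β`, else `b'`; in the
same way `x'`, `y'`.  `N` = the number of RAM.  Let `F` be the constant colour, `e' a b = e (f a) (g b)` for `a, b < k` (drop the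
last row and column: so every cell `(a, b)` is the first cell for `a < a + 1`, `b < b + 1`).  `τ.t0 i j = F (true, true, i)
(true, true, j)`, `τ.t α β i j = F (α, β, i) (!α, !β, j)`, `τ.s = s`.  `Cel` is inherited. -/
def St_UNA : Prop :=
  ∀ (s : Bool) (k : ℕ), ∃ N, ∀ (n : ℕ) (r : Fin n → Fin n → Prop) (e : Fin N → Fin N → Fin 4 → Fin n),
    Cel s r N e → ∃ (τ : Typ) (e' : Fin k → Fin k → Fin 4 → Fin n), τ.s = s ∧ Uni τ r k e'

/-- [UNB] one type, and all structures of two linear orders.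
PROOF.  `Typ` is finite (a product of finite types), `Uni τ r k e` restricts to smaller `k`, so there is one `τ` for all `k`
(otherwise take the maximum of the exceptions).  `Good τ`: `Uni.cel.phi` with `in0`, `out` for `k = 2`: the cell
`(0, 0)`, and the pairs of cells `(0, 0)`, `(1, 1)` / `(1, 1)`, `(0, 0)` / `(0, 1)`, `(1, 0)` / `(1, 0)`, `(0, 1)` for the four values of
`a, b`.  `AgeN`: `M`, `lt`, `z : Fin m → M × Fin 4` increasing for `nlt`.  `P` = the finite set of the first components,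
`k = |P|` (or any `k ≥ |P|`); `A, B : M → Fin k` with `A p < A q ↔ lt true p q` and `B p < B q ↔ lt false p q` for `p, q ∈ P` (number of
the smaller elements of `P`).  `r ∈ K n` and `e` with `Uni τ r k e`.  The map `h (p, i) = e (A p) (B p) i` is strictly monotone from
`nlt` to `<` on `P × Fin 4` (`cel.row`, `cel.col`, `cel.inn`, `cel.sep`), and `r (h x) (h y) ↔ nr lt τ x y` (`in0`, `out`).
`Her` for the strictly monotone map `h ∘ z`. -/
def St_UNB : Prop :=
  ∀ (K : ∀ n : ℕ, Set (Fin n → Fin n → Prop)), Her K →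
    (∀ k, ∃ n, ∃ r ∈ K n, ∃ τ e, Uni τ r k e) → ∃ τ, Good τ ∧ AgeN K τ

/-- [GRW] growth.
PROOF.  For a permutation `π` of `Fin n`: `M = Fin n`, `lt true p q = p < q`, `lt false p q = π p < π q`.  The increasing
enumeration `z π : Fin (4 n) → Fin n × Fin 4` of `nlt`: if `τ.s = true`: the place `2 p + i` (`i < 2`) is `(p, i)`, the place
`2 n + 2 q + i` is `(π⁻¹ q, 2 + i)`; if `τ.s = false`: first the `2 n` places of the levels `2`, `3`.  By `AgeN` the relation
`R π = fun i j => nr lt τ (z π i) (z π j)` is in `K (4 n)`.  `π ↦ R π` is injective: the places do not depend on `π`, and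
`Phi (R π)` of the places of `(p, 0)`, `(p, 1)` and `2 n + 2 q`, `2 n + 2 q + 1` is true iff `p = π⁻¹ q` (`Good τ`).
`Nat.card_perm`/`Fintype.card_perm`, `Set.ncard` (the type of relations on `Fin (4 n)` is finite). -/
def St_GRW : Prop :=
  ∀ (K : ∀ n : ℕ, Set (Fin n → Fin n → Prop)) (τ : Typ), Good τ → AgeN K τ →
    ∀ n : ℕ, n.factorial ≤ (K (4 * n)).ncard

/-! ### Coding -/

/-- [FRM] `Frame` is a set of sentences.
PROOF.  Toolkit in `Kit.lean` (see PMC/FRM.lean for an example).  `nxt`, `mt`, `pt l`, `dl b`, `nlt (dl S) τ (z, l) (z', l')` and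
`nr (dl S) τ (z, l) (z', l')` for fixed `l, l'` (the conditions on `l`, `l'` are constants, `FO_const`; `Phi` is a Boolean
combination of four atomic formulas; the quantifiers over `Bool` by `FO_fex`) are definable. -/
def St_FRM : Prop :=
  ∀ (ι : Type) (τ : Typ), ∃ F : (LP (ι ⊕ Fin 4)).Theory,
    ∀ (M : Type) (S : (LP (ι ⊕ Fin 4)).Structure M),
      @FirstOrder.Language.Theory.Model (LP (ι ⊕ Fin 4)) M S F ↔ Frame S τ

/-- [TRN] translation of sentences.
PROOF.  As PMC/TRN.lean, easier: for `φ : (LP ι).BoundedFormula Empty n` (recursion) there is `ψ : (LP (ι ⊕ Fin 4)).BoundedFormula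
Empty n` with: for all `S` and `v : Fin n → {z // lv S 0 z}`: `ψ` is true at `fun i => (v i).1` iff `φ` is true in `dec S` at `v`.
`rel (un i)`: `un (inl i)`; `rel (lt b)`: the formula of `dl b` (`nxt`, `mt` are definable by `Kit.lean`); `all`: relativised
to level `0`. -/
def St_TRN : Prop :=
  ∀ (ι : Type) (σ : (LP ι).Sentence), ∃ τ : (LP (ι ⊕ Fin 4)).Sentence,
    ∀ (M : Type) (S : (LP (ι ⊕ Fin 4)).Structure M),
      (@FirstOrder.Language.Sentence.Realize (LP (ι ⊕ Fin 4)) M S τ ↔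
        @FirstOrder.Language.Sentence.Realize (LP ι) {z : M // lv S 0 z} (dec S) σ)

/-- [COE] `enc τ S` is a code of `S`.
PROOF.  In `enc τ S`: `lv l (p, i) ↔ i = l`; `nxt 0 1 (p, 0) w ↔ w = (p, 1)` (if `w = (q, 1)`, `p ≠ q`, then `lt true p q` and `(p, 1)`
is between), `nxt 2 3 (p, 2) w ↔ w = (p, 3)`; `mt (p, 0) (q, 2) ↔ p = q`: `Phi` of `nr` at `(p, 0), (p, 1)` and `(q, 2), (q, 3)` is
`Phi (τ.t0)` for `p = q` (true) and `Phi (τ.t a b)` for `p ≠ q` (false, `a`, `b` = the truth values of `lt true p q`, `lt false p q`).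
So `pt l (p, 0) w ↔ w = (p, l)`, `dl b (p, 0) (q, 0) ↔ ls S b p q`.  The linear order: `nlt` is linear (both orders of `S`
are).  `Iso`: `(p, 0) ↦ p`. -/
def St_COE : Prop :=
  ∀ (ι M : Type) (τ : Typ) (S : (LP ι).Structure M), Good τ → Two S →
    Frame (enc τ S) τ ∧ Iso (dec (enc τ S)) S

/-- [REC] a code is the code of its decoded structure.
PROOF.  `Two`: `dl true` is `ls S true` on level `0`; `dl false`: `z ↦` the point of level `2` over `z` (`ex`, `one`, `inj`) and
`ls S true` is linear.  `Iso (enc τ (dec S)) S`: `(z, l) ↦` the `w` with `pt S l z w`: bijective by `ex`, `one`, `lev`, `sur`,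
`inj`, `lvl`, `unq`; the orders and relations by `ord`, `rel` (`ls (dec S) b x y = dl S b x.1 y.1`, equality of elements of
the subtype); `un (inr l')`: `lvl`, `unq`; `un (inl i)`: for `l = 0`, `w = z`; for `l ≠ 0`: `us S (inl i) w` implies `lv S 0 w` (`un`), so
`l = 0`. -/
def St_REC : Prop :=
  ∀ (ι M : Type) (τ : Typ) (S : (LP (ι ⊕ Fin 4)).Structure M), Frame S τ →
    Two (dec S) ∧ Iso (enc τ (dec S)) S

/-- [FUN] functoriality.
PROOF.  `e × id`; `nlt`, `nr` and `lv`, `nxt`, `mt`, `dl` are preserved by isomorphisms. -/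
def St_FUN : Prop :=
  ∀ (ι M M' : Type) (τ : Typ), (∀ (S : (LP ι).Structure M) (S' : (LP ι).Structure M'),
      Iso S S' → Iso (enc τ S) (enc τ S')) ∧
    ∀ (S : (LP (ι ⊕ Fin 4)).Structure M) (S' : (LP (ι ⊕ Fin 4)).Structure M'),
      Iso S S' → Iso (dec S) (dec S')

/-- [DMS] measurable decoding.
PROOF.  As PMC/DMS.lean.  `A x = {a | lv (F x) 0 a}` is infinite (`Frame`: `ℕ` is the union of four sets, each in bijection
with `A x`: or because `M = ℕ` is infinite and `(z, l) ↦ w` is onto); enumeration `Nat.nth (· ∈ A x)`; all the sets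
`{x | a ∈ A x}`, `{x | dl (F x) b a a'}` are measurable (countable unions and intersections of clopen sets), so
`{x | Nat.nth (· ∈ A x) n = m}` too.  `G x ⟨n, (R, a)⟩ = true` iff `R` holds in `dec (F x)` at the points number `a i`. -/
def St_DMS : Prop :=
  ∀ (ι : Type) (τ : Typ) (F : (ℕ → Bool) → (LP (ι ⊕ Fin 4)).Structure ℕ),
    (∀ x, Frame (F x) τ) →
    (∀ (n : ℕ) (R : (LP (ι ⊕ Fin 4)).Relations n) (a : Fin n → ℕ),
      IsClopen {x | (F x).RelMap R a}) →
    ∃ G : (ℕ → Bool) → Code (LP ι), (Measurable G) ∧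
      ∀ x, Iso (dec (F x)) (@toStr (LP ι) (fun n => ⟨fun f => Empty.elim f⟩) (G x))

/-- The dichotomy for first-order theories of ordered digraphs with age in `K` and unary predicates. -/
def VCK (K : ∀ n : ℕ, Set (Fin n → Fin n → Prop)) : Prop :=
  ∀ (ι : Type), Countable ι → ∀ T : (LP ι).Theory,
    (∀ S ∈ ModF T, Lin (ls S true) ∧ Age K (ls S true) (ls S false)) →
    CtblK (ModF T) ∨ PerfK (ModF T)

/-- [SHQ] the dichotomy for `K` implies the dichotomy for two linear orders with unary predicates.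
PROOF.  As PMC/SHP.lean.  Given `T`, let `T'` be `F` (FRM) and the translations (TRN) of the sentences of `T`.  For
`S ∈ ModF T'`: `Frame S τ`, `dec S` is a model of `T`, `Two (dec S)` (REC), and `(ℕ, ls S true, ls S false)` is isomorphic
(REC) to `(D × Fin 4, nlt (ls (dec S)) τ, nr (ls (dec S)) τ)`, so `Age K` by `AgeN` (`Lin` is `Frame.lin`).  `VCK` for `T'`.
(1) `CtblK (ModF T')`, by `g`: `g' n` isomorphic to `dec (g n)` if `lv (g n) 0` is infinite.  `N ∈ ModF T`: `Two N` (hypothesis), so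
COE: `enc τ N` on `ℕ × Fin 4`, copy `S` on `ℕ`, `Frame S τ` (FRM), `dec S ≅ dec (enc τ N) ≅ N` (FUN, COE), `S ∈ ModF T'`, so
isomorphic to some `g n`, and `N ≅ dec (g n) ≅ g' n`.  (2) `PerfK (ModF T')`, by `f`: DMS: `G`; MPK (PMC) for `K = ModF T`:
`toStr (G x) ≅ dec (f x)` is a model of `T`; `toStr (G x) ≅ toStr (G y)` gives `dec (f x) ≅ dec (f y)`, `f x ≅ enc τ (dec (f x)) ≅
enc τ (dec (f y)) ≅ f y` (REC, FUN), so `x = y`. -/
def St_SHQ : Prop :=
  St_FRM → St_TRN → St_COE → St_REC → St_FUN → St_DMS → PMC.St_MPK →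
  ∀ (K : ∀ n : ℕ, Set (Fin n → Fin n → Prop)) (τ : Typ), Good τ → AgeN K τ → VCK K →
    ∀ (ι : Type), Countable ι → ∀ T : (LP ι).Theory, (∀ S ∈ ModF T, Two S) →
      CtblK (ModF T) ∨ PerfK (ModF T)

/-! ### The positive half -/

/-- The dichotomy for ordered digraphs with unary predicates without grids of size `k` (T4, `GRK`). -/
def T4 : Prop :=
  ∀ (ι : Type), Countable ι → ∀ (T : (LP ι).Theory) (k : ℕ),
    (∀ S ∈ ModF T, Lin (ls S true) ∧ ¬ ∃ I J : Fin k → Set ℕ,
      (∀ a a', a < a' → ∀ x ∈ I a, ∀ y ∈ I a', ls S true x y) ∧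
      (∀ b b', b < b' → ∀ x ∈ J b, ∀ y ∈ J b', ls S true x y) ∧
      ∀ a b, ∃ y : Fin k → ℕ, (∀ i, y i ∈ J b) ∧
        ∀ i j, i ≠ j → ∃ x ∈ I a, ¬ (ls S false x (y i) ↔ ls S false x (y j))) →
    CtblK (ModF T) ∨ PerfK (ModF T)

/-- [OGA] classes of bounded grid rank.
PROOF.  `K` has no grids of size `k`.  Let `S ∈ ModF T` have `I`, `J` as in `T4`.  Choose `y a b : Fin k → ℕ` and
`x a b i j ∈ I a`.  The finite set `Z` of all these elements, increasing enumeration `z : Fin m → ℕ` for `ls S true` (`Lin`);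
`r = fun i j => ls S false (z i) (z j) ∈ K m` (`Age`).  `I' a = {t | z t ∈ I a}`, `J' b = {t | z t ∈ J b}` is a grid of size `k`
in `r`: a contradiction. -/
def St_OGA : Prop :=
  T4 → ∀ (K : ∀ n : ℕ, Set (Fin n → Fin n → Prop)), Bdd K → VCK K

end Pool.Agent.OGD
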