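import Pool.Agent.OGD.St

/-!
OGD, [CEA]: one new cell.
-/

set_option autoImplicit false
set_option linter.unusedVariables false

namespace Pool.Agent.OGD

open Set

theorem thm_CEA : St_CEA := by
  classical
  intro M r I EX EY Y hY hcard
  obtain ⟨t, ht, hlt⟩ := Finset.exists_lt_card_fiber_of_mul_lt_card_of_maps_to
    (s := Y) (t := EX.powerset) (f := fun y => EX.filter (fun z => r z y))
    (n := 2 ^ (2 ^ EY.card)) (fun y _ => Finset.mem_powerset.2 (Finset.filter_subset _ _))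
    (by rw [Finset.card_powerset]; exact hcard)
  have hY1 : ∀ y ∈ Y.filter (fun y => EX.filter (fun z => r z y) = t),
      y ∈ Y ∧ EX.filter (fun z => r z y) = t := fun y hy => Finset.mem_filter.1 hy
  generalize hYd : Y.filter (fun y => EX.filter (fun z => r z y) = t) = Y1 at hlt hY1
  -- the traces
  obtain ⟨tr, htr⟩ : ∃ tr : Finset M → M → Set M, ∀ c y x, x ∈ tr c y ↔
      (x ∈ I ∧ EY.filter (fun z => r x z) = c) ∧ r x y :=
    ⟨fun c y => {x | (x ∈ I ∧ EY.filter (fun z => r x z) = c) ∧ r x y}, fun c y x => Iff.rfl⟩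
  have key : ∃ c, ∃ y1 ∈ Y1, ∃ y2 ∈ Y1, ∃ y3 ∈ Y1, tr c y1 ≠ tr c y2 ∧ tr c y1 ≠ tr c y3 ∧
      tr c y2 ≠ tr c y3 := by
    by_contra hcon
    push Not at hcon
    have hne : Y1.Nonempty := by
      rw [← Finset.card_pos]
      exact lt_of_le_of_lt (Nat.zero_le _) hlt
    obtain ⟨y0, hy0⟩ := hne
    have h1 : Y1.card ≤ (Finset.univ : Finset (EY.powerset → Bool)).card := by
      refine Finset.card_le_card_of_injOn
        (fun y => fun c : EY.powerset => decide (tr c.1 y = tr c.1 y0))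
        (fun y _ => Finset.mem_coe.2 (Finset.mem_univ _)) ?_
      intro y hy y' hy' h
      have hy := Finset.mem_coe.1 hy
      have hy' := Finset.mem_coe.1 hy'
      by_contra hne
      obtain ⟨x, hx, hxy⟩ := hY y (hY1 y hy).1 y' (hY1 y' hy').1 hne
      have hc : EY.filter (fun z => r x z) ∈ EY.powerset :=
        Finset.mem_powerset.2 (Finset.filter_subset _ _)
      have h2 := congrFun h ⟨_, hc⟩
      simp only [decide_eq_decide] at h2
      have h3 : tr (EY.filter (fun z => r x z)) y = tr (EY.filter (fun z => r x z)) y' := by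
        by_cases h4 : tr (EY.filter (fun z => r x z)) y = tr (EY.filter (fun z => r x z)) y0
        · rw [h4, h2.1 h4]
        · by_contra h5
          have h6 : tr (EY.filter (fun z => r x z)) y' ≠ tr (EY.filter (fun z => r x z)) y0 :=
            fun h7 => h4 (h2.2 h7)
          exact h6 (hcon _ y hy y' hy' y0 hy0 h5 h4)
      apply hxy
      have h4 := htr (EY.filter (fun z => r x z)) y x
      have h5 := htr (EY.filter (fun z => r x z)) y' x
      rw [h3] at h4
      constructor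
      · intro h6
        exact (h5.1 (h4.2 ⟨⟨hx, rfl⟩, h6⟩)).2
      · intro h6
        exact (h4.1 (h5.2 ⟨⟨hx, rfl⟩, h6⟩)).2
    have h2 : (Finset.univ : Finset (EY.powerset → Bool)).card = 2 ^ (2 ^ EY.card) := by
      rw [Finset.card_univ, Fintype.card_fun, Fintype.card_bool, Fintype.card_coe,
        Finset.card_powerset]
    rw [h2] at h1
    exact absurd hlt (not_lt.2 h1)
  obtain ⟨c, y1, hy1, y2, hy2, y3, hy3, h12, h13, h23⟩ := key
  -- different traces
  have hdiff : ∀ y y', tr c y ≠ tr c y' → ∃ x, (x ∈ I ∧ EY.filter (fun z => r x z) = c) ∧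
      ¬ (r x y ↔ r x y') := by
    intro y y' h
    by_contra hcon
    push Not at hcon
    apply h
    ext x
    rw [htr, htr]
    constructor
    · rintro ⟨h1, h2⟩
      have h3 := hcon x h1
      tauto
    · rintro ⟨h1, h2⟩
      have h3 := hcon x h1
      tauto
  have main : ∃ y ∈ Y1, ∃ y' ∈ Y1, tr c y ≠ tr c y' ∧
      ∃ x', (x' ∈ I ∧ EY.filter (fun z => r x' z) = c) ∧ (r x' y ↔ r x' y') := by
    by_contra hcon
    obtain ⟨x, hx, hx'⟩ := hdiff y2 y3 h23
    have h1 : ¬ (r x y1 ↔ r x y2) := fun h => hcon ⟨y1, hy1, y2, hy2, h12, x, hx, h⟩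
    have h2 : ¬ (r x y1 ↔ r x y3) := fun h => hcon ⟨y1, hy1, y3, hy3, h13, x, hx, h⟩
    tauto
  obtain ⟨y, hy, y', hy', hne, x', hx', hxx'⟩ := main
  obtain ⟨x, hx, hxx⟩ := hdiff y y' hne
  refine ⟨x, hx.1, x', hx'.1, y, (hY1 y hy).1, y', (hY1 y' hy').1, ?_, ?_, hxx, hxx'⟩
  · intro z hz
    have h1 : z ∈ EX.filter (fun z => r z y) ↔ z ∈ EX.filter (fun z => r z y') := by
      rw [(hY1 y hy).2, (hY1 y' hy').2]
    rw [Finset.mem_filter, Finset.mem_filter] at h1
    exact ⟨fun h => (h1.1 ⟨hz, h⟩).2, fun h => (h1.2 ⟨hz, h⟩).2⟩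
  · intro z hz
    have h1 : z ∈ EY.filter (fun z => r x z) ↔ z ∈ EY.filter (fun z => r x' z) := by
      rw [hx.2, hx'.2]
    rw [Finset.mem_filter, Finset.mem_filter] at h1
    exact ⟨fun h => (h1.1 ⟨hz, h⟩).2, fun h => (h1.2 ⟨hz, h⟩).2⟩

end Pool.Agent.OGD
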