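import Pool.Agent.OGD.St

/-!
OGD, module CEL: cells for all positions of a board (statement in `St.lean`).
-/

set_option autoImplicit false
set_option linter.unusedVariables false

namespace Pool.Agent.OGD

open Set

private theorem CEL_x (a b c d : Prop) : Xor (Xor a b) (Xor c d) ↔ ¬ (¬ (a ↔ b) ↔ ¬ (c ↔ d)) := by
  rw [xor_iff_not_iff, xor_iff_not_iff, xor_iff_not_iff]

private theorem CEL_step (hA : St_CEA) {n N k : ℕ} (r : Fin n → Fin n → Prop)
    (I J : Fin N → Set (Fin n)) (hR : Ric r I J) (ι : Fin k → Fin N)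
    (hN : 2 ^ (2 * (k * k)) * 2 ^ (2 ^ (2 * (k * k))) < N) (s : Finset (Fin k × Fin k)) :
    ∃ e : Fin k × Fin k → Fin 4 → Fin n,
      (∀ c ∈ s, (e c 0 ∈ I (ι c.1) ∧ e c 1 ∈ I (ι c.1)) ∧ e c 2 ∈ J (ι c.2) ∧ e c 3 ∈ J (ι c.2)) ∧
      ∀ c ∈ s, ∀ d ∈ s, (Phi r (e c) (e d) ↔ c = d) := by
  classical
  induction s using Finset.induction_on with
  | empty =>
    have h0 : 0 < N := by omega
    obtain ⟨y, -, -⟩ := hR ⟨0, h0⟩ ⟨0, h0⟩
    exact ⟨fun _ _ => y ⟨0, h0⟩, by simp, by simp⟩
  | insert c s hc ih =>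
    obtain ⟨e, he1, he2⟩ := ih
    obtain ⟨y, hy1, hy2⟩ := hR (ι c.1) (ι c.2)
    have hcard : s.card ≤ k * k := by
      have h := Finset.card_le_univ s
      rwa [Fintype.card_prod, Fintype.card_fin] at h
    have hyinj : Function.Injective y := by
      intro i j hij
      by_contra hne
      obtain ⟨x, -, hx⟩ := hy2 i j hne
      exact hx (by rw [hij])
    have hEX : (s.image (fun d => e d 0) ∪ s.image (fun d => e d 1)).card ≤ 2 * (k * k) := by
      have h1 := Finset.card_union_le (s.image fun d => e d 0) (s.image fun d => e d 1)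
      have h2 : (s.image fun d => e d 0).card ≤ s.card := Finset.card_image_le
      have h3 : (s.image fun d => e d 1).card ≤ s.card := Finset.card_image_le
      omega
    have hEY : (s.image (fun d => e d 2) ∪ s.image (fun d => e d 3)).card ≤ 2 * (k * k) := by
      have h1 := Finset.card_union_le (s.image fun d => e d 2) (s.image fun d => e d 3)
      have h2 : (s.image fun d => e d 2).card ≤ s.card := Finset.card_image_le
      have h3 : (s.image fun d => e d 3).card ≤ s.card := Finset.card_image_le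
      omega
    obtain ⟨x, hx, x', hx', u, hu, u', hu', h1, h2, h3, h4⟩ := hA (Fin n) r (I (ι c.1))
      (s.image (fun d => e d 0) ∪ s.image (fun d => e d 1))
      (s.image (fun d => e d 2) ∪ s.image (fun d => e d 3)) (Finset.univ.image y)
      (by
        intro z hz z' hz' hne
        obtain ⟨i, -, rfl⟩ := Finset.mem_image.1 hz
        obtain ⟨j, -, rfl⟩ := Finset.mem_image.1 hz'
        exact hy2 i j fun h => hne (by rw [h]))
      (by
        rw [Finset.card_image_of_injective _ hyinj, Finset.card_univ, Fintype.card_fin]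
        refine lt_of_le_of_lt (Nat.mul_le_mul ?_ ?_) hN
        · exact Nat.pow_le_pow_right (by norm_num) hEX
        · exact Nat.pow_le_pow_right (by norm_num) (Nat.pow_le_pow_right (by norm_num) hEY))
    obtain ⟨i, -, rfl⟩ := Finset.mem_image.1 hu
    obtain ⟨j, -, rfl⟩ := Finset.mem_image.1 hu'
    have hcd : ∀ d ∈ s, d ≠ c := fun d hd h => hc (h ▸ hd)
    refine ⟨Function.update e c ![x, x', y i, y j], ?_, ?_⟩
    · intro d hd
      rcases Finset.mem_insert.1 hd with rfl | hd
      · rw [Function.update_self]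
        exact ⟨⟨hx, hx'⟩, hy1 i, hy1 j⟩
      · rw [Function.update_of_ne (hcd d hd)]
        exact he1 d hd
    · intro d hd d' hd'
      rcases Finset.mem_insert.1 hd with rfl | hd
      · rcases Finset.mem_insert.1 hd' with rfl | hd'
        · rw [Function.update_self]
          refine ⟨fun _ => rfl, fun _ => ?_⟩
          show Xor (Xor (r x (y i)) (r x' (y i))) (Xor (r x (y j)) (r x' (y j)))
          rw [CEL_x]
          tauto
        · rw [Function.update_self, Function.update_of_ne (hcd d' hd')]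
          refine ⟨fun h => ?_, fun h => absurd h.symm (hcd d' hd')⟩
          have h5 := h2 (e d' 2) (Finset.mem_union_left _ (Finset.mem_image_of_mem _ hd'))
          have h6 := h2 (e d' 3) (Finset.mem_union_right _ (Finset.mem_image_of_mem _ hd'))
          exfalso
          have h7 : Xor (Xor (r x (e d' 2)) (r x' (e d' 2)))
            (Xor (r x (e d' 3)) (r x' (e d' 3))) := h
          rw [CEL_x] at h7
          tauto
      · rcases Finset.mem_insert.1 hd' with hd'c | hd'
        · rw [hd'c, Function.update_self, Function.update_of_ne (hcd d hd)]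
          refine ⟨fun h => ?_, fun h => absurd h (hcd d hd)⟩
          have h5 := h1 (e d 0) (Finset.mem_union_left _ (Finset.mem_image_of_mem _ hd))
          have h6 := h1 (e d 1) (Finset.mem_union_right _ (Finset.mem_image_of_mem _ hd))
          exfalso
          have h7 : Xor (Xor (r (e d 0) (y i)) (r (e d 1) (y i)))
            (Xor (r (e d 0) (y j)) (r (e d 1) (y j))) := h
          rw [CEL_x] at h7
          tauto
        · rw [Function.update_of_ne (hcd d hd), Function.update_of_ne (hcd d' hd')]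
          exact he2 d hd d' hd'

private def CEL_srt {n : ℕ} (u : Fin 4 → Fin n) : Fin 4 → Fin n :=
  ![min (u 0) (u 1), max (u 0) (u 1), min (u 2) (u 3), max (u 2) (u 3)]

private theorem CEL_phi {n : ℕ} (r : Fin n → Fin n → Prop) (u v : Fin 4 → Fin n) :
    Phi r (CEL_srt u) (CEL_srt v) ↔ Phi r u v := by
  show Xor (Xor (r (min (u 0) (u 1)) (min (v 2) (v 3))) (r (max (u 0) (u 1)) (min (v 2) (v 3))))
    (Xor (r (min (u 0) (u 1)) (max (v 2) (v 3))) (r (max (u 0) (u 1)) (max (v 2) (v 3)))) ↔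
    Xor (Xor (r (u 0) (v 2)) (r (u 1) (v 2))) (Xor (r (u 0) (v 3)) (r (u 1) (v 3)))
  rcases le_total (u 0) (u 1) with h | h <;> rcases le_total (v 2) (v 3) with h' | h'
  · rw [min_eq_left h, max_eq_right h, min_eq_left h', max_eq_right h']
  · rw [min_eq_left h, max_eq_right h, min_eq_right h', max_eq_left h']
    rw [CEL_x, CEL_x]
    tauto
  · rw [min_eq_right h, max_eq_left h, min_eq_left h', max_eq_right h']
    rw [CEL_x, CEL_x]
    tauto
  · rw [min_eq_right h, max_eq_left h, min_eq_right h', max_eq_left h']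
    rw [CEL_x, CEL_x]
    tauto

private theorem CEL_memI {n : ℕ} {u : Fin 4 → Fin n} {I : Set (Fin n)} (h0 : u 0 ∈ I) (h1 : u 1 ∈ I)
    (i : Fin 4) (hi : i.1 < 2) : CEL_srt u i ∈ I := by
  match i, hi with
  | 0, _ =>
    show min (u 0) (u 1) ∈ I
    rcases min_choice (u 0) (u 1) with h | h <;> rw [h] <;> assumption
  | 1, _ =>
    show max (u 0) (u 1) ∈ I
    rcases max_choice (u 0) (u 1) with h | h <;> rw [h] <;> assumption

private theorem CEL_memJ {n : ℕ} {u : Fin 4 → Fin n} {I : Set (Fin n)} (h0 : u 2 ∈ I) (h1 : u 3 ∈ I)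
    (i : Fin 4) (hi : 2 ≤ i.1) : CEL_srt u i ∈ I := by
  match i, hi with
  | 2, _ =>
    show min (u 2) (u 3) ∈ I
    rcases min_choice (u 2) (u 3) with h | h <;> rw [h] <;> assumption
  | 3, _ =>
    show max (u 2) (u 3) ∈ I
    rcases max_choice (u 2) (u 3) with h | h <;> rw [h] <;> assumption

theorem thm_CEL (hA : St_CEA) : St_CEL := by
  intro s k
  refine ⟨k + (2 ^ (2 * (k * k)) * 2 ^ (2 ^ (2 * (k * k))) + 1), ?_⟩
  generalize hNd : k + (2 ^ (2 * (k * k)) * 2 ^ (2 ^ (2 * (k * k))) + 1) = N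
  intro n r hG
  obtain ⟨I, J, hI, hJ, hR, hS⟩ := hG
  have hkN : k ≤ N := by omega
  obtain ⟨e, he1, he2⟩ := CEL_step hA r I J hR (Fin.castLE hkN) (by omega) Finset.univ
  have hmono : ∀ a a' : Fin k, a < a' → Fin.castLE hkN a < Fin.castLE hkN a' := fun a a' h => h
  have h1 : ∀ a b (i : Fin 4), i.1 < 2 → CEL_srt (e (a, b)) i ∈ I (Fin.castLE hkN a) :=
    fun a b i hi => CEL_memI (he1 (a, b) (Finset.mem_univ _)).1.1
      (he1 (a, b) (Finset.mem_univ _)).1.2 i hi
  have h2 : ∀ a b (i : Fin 4), 2 ≤ i.1 → CEL_srt (e (a, b)) i ∈ J (Fin.castLE hkN b) :=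
    fun a b i hi => CEL_memJ (he1 (a, b) (Finset.mem_univ _)).2.1
      (he1 (a, b) (Finset.mem_univ _)).2.2 i hi
  refine ⟨fun a b => CEL_srt (e (a, b)), ?_, ?_, ?_, ?_, ?_⟩
  · intro a a' b b' i j hi hj ha
    exact hI _ _ (hmono a a' ha) _ (h1 a b i hi) _ (h1 a' b' j hj)
  · intro a a' b b' i j hi hj hb
    exact hJ _ _ (hmono b b' hb) _ (h2 a b i hi) _ (h2 a' b' j hj)
  · intro a b
    have h3 : Xor (Xor (r (e (a, b) 0) (e (a, b) 2)) (r (e (a, b) 1) (e (a, b) 2)))
        (Xor (r (e (a, b) 0) (e (a, b) 3)) (r (e (a, b) 1) (e (a, b) 3))) :=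
      (he2 (a, b) (Finset.mem_univ _) (a, b) (Finset.mem_univ _)).2 rfl
    constructor
    · refine min_lt_max.2 fun h4 => ?_
      rw [h4] at h3
      rw [CEL_x] at h3
      tauto
    · refine min_lt_max.2 fun h4 => ?_
      rw [h4] at h3
      rw [CEL_x] at h3
      tauto
  · intro a a' b b' i j hi hj
    exact hS _ _ _ (h1 a b i hi) _ (h2 a' b' j hj)
  · intro a a' b b'
    show Phi r (CEL_srt (e (a, b))) (CEL_srt (e (a', b'))) ↔ _
    rw [CEL_phi, he2 (a, b) (Finset.mem_univ _) (a', b') (Finset.mem_univ _), Prod.mk.injEq]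

end Pool.Agent.OGD
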