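import Pool.Agent.OGD.St

/-!
OGD [COE] (helper96): `enc τ S` is a code of `S`.
-/

set_option autoImplicit false
set_option linter.unusedVariables false

namespace Pool.Agent.OGD

open FirstOrder.Language Set
open Pool.Agent.PMC (Sy LP ls us Two)
open Pool.Agent.Helper6.Str (Iso RelIso)

/-! ### The order of the code -/

section lin

variable {M : Type}

/-- lexicographic order -/
private def COE_lx (r : M → M → Prop) (x y : M × Fin 4) : Prop :=
  r x.1 y.1 ∨ (x.1 = y.1 ∧ x.2 < y.2)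

private theorem COE_lx_lin {r : M → M → Prop} (h : Lin r) : Lin (COE_lx r) := by
  obtain ⟨hi, ht, hc⟩ := h
  refine ⟨?_, ?_, ?_⟩
  · rintro x (h | ⟨-, h⟩)
    · exact hi _ h
    · exact lt_irrefl _ h
  · rintro x y z (h | ⟨h1, h2⟩) (h' | ⟨h1', h2'⟩)
    · exact Or.inl (ht _ _ _ h h')
    · exact Or.inl (h1' ▸ h)
    · exact Or.inl (h1.symm ▸ h')
    · exact Or.inr ⟨h1.trans h1', h2.trans h2'⟩
  · intro x y hxy
    by_cases h1 : x.1 = y.1
    · have h2 : x.2 ≠ y.2 := fun h2 => hxy (Prod.ext h1 h2)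
      rcases lt_or_gt_of_ne h2 with h3 | h3
      · exact Or.inl (Or.inr ⟨h1, h3⟩)
      · exact Or.inr (Or.inr ⟨h1.symm, h3⟩)
    · rcases hc _ _ h1 with h3 | h3
      · exact Or.inl (Or.inl h3)
      · exact Or.inr (Or.inl h3)

variable (lt : Bool → M → M → Prop) (τ : Typ) {x y : M × Fin 4}

private theorem COE_n1 (hx : x.2.1 < 2) (hy : y.2.1 < 2) :
    nlt lt τ x y ↔ COE_lx (lt true) x y := by
  constructor
  · rintro (⟨-, -, h⟩ | ⟨h, -⟩ | ⟨-, h, -⟩ | ⟨h, -⟩)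
    · exact h
    · omega
    · omega
    · omega
  · exact fun h => Or.inl ⟨hx, hy, h⟩

private theorem COE_n2 (hx : 2 ≤ x.2.1) (hy : 2 ≤ y.2.1) :
    nlt lt τ x y ↔ COE_lx (lt false) x y := by
  constructor
  · rintro (⟨h, -⟩ | ⟨-, -, h⟩ | ⟨h, -⟩ | ⟨-, h, -⟩)
    · omega
    · exact h
    · omega
    · omega
  · exact fun h => Or.inr (Or.inl ⟨hx, hy, h⟩)

private theorem COE_n3 (hx : x.2.1 < 2) (hy : 2 ≤ y.2.1) : nlt lt τ x y ↔ τ.s = true := by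
  constructor
  · rintro (⟨-, h, -⟩ | ⟨h, -⟩ | ⟨-, -, h⟩ | ⟨h, -⟩)
    · omega
    · omega
    · exact h
    · omega
  · exact fun h => Or.inr (Or.inr (Or.inl ⟨hx, hy, h⟩))

private theorem COE_n4 (hx : 2 ≤ x.2.1) (hy : y.2.1 < 2) : nlt lt τ x y ↔ τ.s = false := by
  constructor
  · rintro (⟨h, -⟩ | ⟨-, h, -⟩ | ⟨h, -⟩ | ⟨-, -, h⟩)
    · omega
    · omega
    · omega
    · exact h
  · exact fun h => Or.inr (Or.inr (Or.inr ⟨hx, hy, h⟩))

private theorem COE_nlt_lin (h : ∀ b, Lin (lt b)) : Lin (nlt lt τ) := by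
  obtain ⟨hi1, ht1, hc1⟩ := COE_lx_lin (h true)
  obtain ⟨hi2, ht2, hc2⟩ := COE_lx_lin (h false)
  refine ⟨?_, ?_, ?_⟩
  · intro x
    rcases lt_or_ge x.2.1 2 with hx | hx
    · rw [COE_n1 lt τ hx hx]; exact hi1 x
    · rw [COE_n2 lt τ hx hx]; exact hi2 x
  · intro x y z
    rcases lt_or_ge x.2.1 2 with hx | hx <;> rcases lt_or_ge y.2.1 2 with hy | hy <;>
      rcases lt_or_ge z.2.1 2 with hz | hz
    · rw [COE_n1 lt τ hx hy, COE_n1 lt τ hy hz, COE_n1 lt τ hx hz]; exact ht1 x y z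
    · rw [COE_n3 lt τ hy hz, COE_n3 lt τ hx hz]; exact fun _ h => h
    · rw [COE_n3 lt τ hx hy, COE_n4 lt τ hy hz]
      intro h1 h2
      rw [h1] at h2
      exact absurd h2 (by decide)
    · rw [COE_n3 lt τ hx hy, COE_n3 lt τ hx hz]; exact fun h _ => h
    · rw [COE_n4 lt τ hx hy, COE_n4 lt τ hx hz]; exact fun h _ => h
    · rw [COE_n4 lt τ hx hy, COE_n3 lt τ hy hz]
      intro h1 h2
      rw [h1] at h2
      exact absurd h2 (by decide)
    · rw [COE_n4 lt τ hy hz, COE_n4 lt τ hx hz]; exact fun _ h => h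
    · rw [COE_n2 lt τ hx hy, COE_n2 lt τ hy hz, COE_n2 lt τ hx hz]; exact ht2 x y z
  · intro x y hxy
    rcases lt_or_ge x.2.1 2 with hx | hx <;> rcases lt_or_ge y.2.1 2 with hy | hy
    · rw [COE_n1 lt τ hx hy, COE_n1 lt τ hy hx]; exact hc1 x y hxy
    · rw [COE_n3 lt τ hx hy, COE_n4 lt τ hy hx]
      cases τ.s
      · exact Or.inr rfl
      · exact Or.inl rfl
    · rw [COE_n4 lt τ hx hy, COE_n3 lt τ hy hx]
      cases τ.s
      · exact Or.inl rfl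
      · exact Or.inr rfl
    · rw [COE_n2 lt τ hx hy, COE_n2 lt τ hy hx]; exact hc2 x y hxy

end lin

/-! ### The code -/

section code

variable {ι M : Type} {τ : Typ} {S : (LP ι).Structure M}

private theorem COE_next {r : M → M → Prop} (hr : Lin r) {l l' : Fin 4} (hl : l.1 + 1 = l'.1)
    (p : M) (w : M × Fin 4) (hw : w.2 = l') :
    (COE_lx r (p, l) w ∧ ∀ v : M × Fin 4, v.2 = l ∨ v.2 = l' → COE_lx r (p, l) v →
      ¬ COE_lx r v w) ↔ w = (p, l') := by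
  have hll : l < l' := by
    rw [Fin.lt_def]; omega
  obtain ⟨q, j⟩ := w
  obtain rfl : j = l' := hw
  constructor
  · rintro ⟨h1, h2⟩
    rcases h1 with h1 | ⟨h1, -⟩
    · exact absurd (Or.inl h1 : COE_lx r (p, j) (q, j))
        (h2 (p, j) (Or.inr rfl) (Or.inr ⟨rfl, hll⟩))
    · obtain rfl : p = q := h1
      rfl
  · intro h
    obtain rfl : q = p := congrArg Prod.fst h
    refine ⟨Or.inr ⟨rfl, hll⟩, ?_⟩
    rintro ⟨v, i⟩ hv (h1 | ⟨h1, h1'⟩) (h2 | ⟨h2, h2'⟩)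
    · exact hr.1 _ (hr.2.1 _ _ _ h1 h2)
    · exact hr.1 v ((show v = q from h2) ▸ h1)
    · exact hr.1 v ((show q = v from h1) ▸ h2)
    · have h3 : l < i := h1'
      have h4 : i < j := h2'
      rw [Fin.lt_def] at h3 h4
      omega

private theorem COE_m1 {x y : M × Fin 4} (hx : x.2 = 0 ∨ x.2 = 1) (hy : y.2 = 0 ∨ y.2 = 1) :
    ls (enc τ S) true x y ↔ COE_lx (ls S true) x y := by
  have h : ∀ i : Fin 4, i = 0 ∨ i = 1 → i.1 < 2 := by decide
  exact COE_n1 (ls S) τ (h _ hx) (h _ hy)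

private theorem COE_m2 {x y : M × Fin 4} (hx : x.2 = 2 ∨ x.2 = 3) (hy : y.2 = 2 ∨ y.2 = 3) :
    ls (enc τ S) true x y ↔ COE_lx (ls S false) x y := by
  have h : ∀ i : Fin 4, i = 2 ∨ i = 3 → 2 ≤ i.1 := by decide
  exact COE_n2 (ls S) τ (h _ hx) (h _ hy)

private theorem COE_nxt1 (hS : Two S) (z w : M × Fin 4) :
    nxt (enc τ S) 0 1 z w ↔ z.2 = 0 ∧ w = (z.1, 1) := by
  obtain ⟨p, i⟩ := z
  constructor
  · rintro ⟨h1, h2, h3, h4⟩
    obtain rfl : i = 0 := h1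
    have hw : w.2 = 1 := h2
    refine ⟨rfl, (COE_next (hS true) (l := 0) (l' := 1) rfl p w hw).1 ⟨?_, ?_⟩⟩
    · exact (COE_m1 (Or.inl rfl) (Or.inr hw)).1 h3
    · intro v hv h5 h6
      exact h4 v hv ((COE_m1 (Or.inl rfl) hv).2 h5) ((COE_m1 hv (Or.inr hw)).2 h6)
  · rintro ⟨h1, h2⟩
    obtain rfl : i = 0 := h1
    have hw : w.2 = 1 := by rw [h2]
    obtain ⟨h3, h4⟩ := (COE_next (hS true) (l := 0) (l' := 1) rfl p w hw).2 h2
    refine ⟨rfl, hw, (COE_m1 (Or.inl rfl) (Or.inr hw)).2 h3, ?_⟩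
    intro v hv h5 h6
    exact h4 v hv ((COE_m1 (Or.inl rfl) hv).1 h5) ((COE_m1 hv (Or.inr hw)).1 h6)

private theorem COE_nxt2 (hS : Two S) (z w : M × Fin 4) :
    nxt (enc τ S) 2 3 z w ↔ z.2 = 2 ∧ w = (z.1, 3) := by
  obtain ⟨p, i⟩ := z
  constructor
  · rintro ⟨h1, h2, h3, h4⟩
    obtain rfl : i = 2 := h1
    have hw : w.2 = 3 := h2
    refine ⟨rfl, (COE_next (hS false) (l := 2) (l' := 3) rfl p w hw).1 ⟨?_, ?_⟩⟩
    · exact (COE_m2 (Or.inl rfl) (Or.inr hw)).1 h3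
    · intro v hv h5 h6
      exact h4 v hv ((COE_m2 (Or.inl rfl) hv).2 h5) ((COE_m2 hv (Or.inr hw)).2 h6)
  · rintro ⟨h1, h2⟩
    obtain rfl : i = 2 := h1
    have hw : w.2 = 3 := by rw [h2]
    obtain ⟨h3, h4⟩ := (COE_next (hS false) (l := 2) (l' := 3) rfl p w hw).2 h2
    refine ⟨rfl, hw, (COE_m2 (Or.inl rfl) (Or.inr hw)).2 h3, ?_⟩
    intro v hv h5 h6
    exact h4 v hv ((COE_m2 (Or.inl rfl) hv).1 h5) ((COE_m2 hv (Or.inr hw)).1 h6)

private theorem COE_nr_eq (lt : Bool → M → M → Prop) (p : M) (i j : Fin 4) :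
    nr lt τ (p, i) (p, j) ↔ τ.t0 i j = true := by
  constructor
  · rintro (⟨-, h⟩ | ⟨h, -⟩)
    · exact h
    · exact absurd rfl h
  · exact fun h => Or.inl ⟨rfl, h⟩

private theorem COE_nr_ne (lt : Bool → M → M → Prop) {p q : M} (hpq : p ≠ q) {a b : Bool}
    (ha : a = true ↔ lt true p q) (hb : b = true ↔ lt false p q) (i j : Fin 4) :
    nr lt τ (p, i) (q, j) ↔ τ.t a b i j = true := by
  constructor
  · rintro (⟨h, -⟩ | ⟨-, a', b', ha', hb', h⟩)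
    · exact absurd h hpq
    · have h1 : a' = a := Bool.eq_iff_iff.2 (ha'.trans ha.symm)
      have h2 : b' = b := Bool.eq_iff_iff.2 (hb'.trans hb.symm)
      rw [h1, h2] at h
      exact h
  · exact fun h => Or.inr ⟨hpq, a, b, ha, hb, h⟩

private theorem COE_phi (hτ : Good τ) (lt : Bool → M → M → Prop) (p q : M) :
    Phi (nr lt τ) ![(p, 0), (p, 1), (p, 0), (p, 0)] ![(q, 2), (q, 2), (q, 2), (q, 3)] ↔ p = q := by
  classical
  by_cases hpq : p = q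
  · subst hpq
    refine iff_of_true ?_ rfl
    have h := hτ.1
    show Xor' (Xor' (nr lt τ (p, 0) (p, 2)) (nr lt τ (p, 1) (p, 2)))
      (Xor' (nr lt τ (p, 0) (p, 3)) (nr lt τ (p, 1) (p, 3)))
    rw [COE_nr_eq, COE_nr_eq, COE_nr_eq, COE_nr_eq]
    exact h
  · refine iff_of_false ?_ hpq
    have h := hτ.2 (decide (lt true p q)) (decide (lt false p q))
    show ¬ Xor' (Xor' (nr lt τ (p, 0) (q, 2)) (nr lt τ (p, 1) (q, 2)))
      (Xor' (nr lt τ (p, 0) (q, 3)) (nr lt τ (p, 1) (q, 3)))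
    have h2 : ∀ i j, nr lt τ (p, i) (q, j) ↔
        τ.t (decide (lt true p q)) (decide (lt false p q)) i j = true :=
      fun i j => COE_nr_ne lt hpq decide_eq_true_iff decide_eq_true_iff i j
    rw [h2, h2, h2, h2]
    exact h

private theorem COE_mt (hτ : Good τ) (hS : Two S) (z w : M × Fin 4) :
    mt (enc τ S) z w ↔ z.2 = 0 ∧ w = (z.1, 2) := by
  obtain ⟨p, i⟩ := z
  obtain ⟨q, j⟩ := w
  constructor
  · rintro ⟨h1, h2, z', w', h3, h4, h5⟩
    obtain rfl : i = 0 := h1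
    obtain rfl : j = 2 := h2
    rw [COE_nxt1 hS] at h3
    rw [COE_nxt2 hS] at h4
    obtain rfl : z' = (p, 1) := h3.2
    obtain rfl : w' = (q, 3) := h4.2
    obtain rfl : p = q := (COE_phi hτ (ls S) p q).1 h5
    exact ⟨rfl, rfl⟩
  · rintro ⟨h1, h2⟩
    obtain rfl : i = 0 := h1
    obtain rfl : q = p := congrArg Prod.fst h2
    obtain rfl : j = 2 := congrArg Prod.snd h2
    exact ⟨rfl, rfl, (q, 1), (q, 3), (COE_nxt1 hS _ _).2 ⟨rfl, rfl⟩,
      (COE_nxt2 hS _ _).2 ⟨rfl, rfl⟩, (COE_phi hτ (ls S) q q).2 rfl⟩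

private theorem COE_pt (hτ : Good τ) (hS : Two S) (l : Fin 4) (z w : M × Fin 4) :
    pt (enc τ S) l z w ↔ z.2 = 0 ∧ w = (z.1, l) := by
  match l with
  | 0 =>
    constructor
    · rintro ⟨h1, h2⟩
      have h1' : z.2 = 0 := h1
      refine ⟨h1', ?_⟩
      rw [h2, ← h1']
    · rintro ⟨h1, h2⟩
      refine ⟨h1, ?_⟩
      rw [h2, ← h1]
  | 1 => exact COE_nxt1 hS z w
  | 2 => exact COE_mt hτ hS z w
  | 3 =>
    constructor
    · rintro ⟨v, h1, h2⟩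
      rw [COE_mt hτ hS] at h1
      rw [COE_nxt2 hS] at h2
      refine ⟨h1.1, ?_⟩
      rw [h2.2, h1.2]
    · rintro ⟨h1, h2⟩
      exact ⟨(z.1, 2), (COE_mt hτ hS _ _).2 ⟨h1, rfl⟩, (COE_nxt2 hS _ _).2 ⟨rfl, h2⟩⟩

private theorem COE_dl (hτ : Good τ) (hS : Two S) (b : Bool) {z z' : M × Fin 4} (hz : z.2 = 0)
    (hz' : z'.2 = 0) : dl (enc τ S) b z z' ↔ ls S b z.1 z'.1 := by
  obtain ⟨p, i⟩ := z
  obtain ⟨q, j⟩ := z'
  obtain rfl : i = 0 := hz
  obtain rfl : j = 0 := hz'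
  match b with
  | true =>
    constructor
    · intro h
      rcases (COE_m1 (x := (p, 0)) (y := (q, 0)) (Or.inl rfl) (Or.inl rfl)).1 h with
        h1 | ⟨-, h1⟩
      · exact h1
      · exact absurd h1 (lt_irrefl _)
    · intro h
      exact (COE_m1 (x := (p, 0)) (y := (q, 0)) (Or.inl rfl) (Or.inl rfl)).2 (Or.inl h)
  | false =>
    constructor
    · rintro ⟨v, v', h1, h2, h3⟩
      rw [COE_mt hτ hS] at h1 h2
      obtain rfl : v = (p, 2) := h1.2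
      obtain rfl : v' = (q, 2) := h2.2
      rcases (COE_m2 (x := (p, 2)) (y := (q, 2)) (Or.inl rfl) (Or.inl rfl)).1 h3 with
        h4 | ⟨-, h4⟩
      · exact h4
      · exact absurd h4 (lt_irrefl _)
    · intro h
      exact ⟨(p, 2), (q, 2), (COE_mt hτ hS _ _).2 ⟨rfl, rfl⟩, (COE_mt hτ hS _ _).2 ⟨rfl, rfl⟩,
        (COE_m2 (x := (p, 2)) (y := (q, 2)) (Or.inl rfl) (Or.inl rfl)).2 (Or.inl h)⟩

private theorem COE_eq {z z' : M × Fin 4} (hz : z.2 = 0) (hz' : z'.2 = 0) :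
    z = z' ↔ z.1 = z'.1 :=
  ⟨fun h => congrArg Prod.fst h, fun h => Prod.ext h (hz.trans hz'.symm)⟩

end code

theorem thm_COE : St_COE := by
  intro ι M τ S hτ hS
  refine ⟨⟨?_, ?_, ?_, ?_, ?_, ?_, ?_, ?_, ?_, ?_, ?_⟩, ?_⟩
  · exact COE_nlt_lin (ls S) τ hS
  · exact fun z => ⟨z.2, rfl⟩
  · exact fun z l l' h h' => (show z.2 = l from h).symm.trans h'
  · exact fun z l hz => ⟨(z.1, l), (COE_pt hτ hS l z _).2 ⟨hz, rfl⟩⟩
  · intro l z w w' h h'
    rw [COE_pt hτ hS] at h h'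
    rw [h.2, h'.2]
  · intro l z w h
    rw [COE_pt hτ hS] at h
    refine ⟨h.1, ?_⟩
    rw [h.2]
    rfl
  · intro l w hw
    refine ⟨(w.1, 0), (COE_pt hτ hS l _ w).2 ⟨rfl, ?_⟩⟩
    exact Prod.ext rfl hw
  · intro l z z' w h h'
    rw [COE_pt hτ hS] at h h'
    have h2 : (z.1, l) = (z'.1, l) := h.2.symm.trans h'.2
    exact (COE_eq h.1 h'.1).2 (Prod.mk.inj h2).1
  · intro l l' z z' w w' h h'
    rw [COE_pt hτ hS] at h h'
    rw [h.2, h'.2]
    show nlt (ls S) τ (z.1, l) (z'.1, l') ↔ nlt (dl (enc τ S)) τ (z, l) (z', l')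
    unfold nlt
    simp only [COE_dl hτ hS _ h.1 h'.1, COE_eq h.1 h'.1]
  · intro l l' z z' w w' h h'
    rw [COE_pt hτ hS] at h h'
    rw [h.2, h'.2]
    show nr (ls S) τ (z.1, l) (z'.1, l') ↔ nr (dl (enc τ S)) τ (z, l) (z', l')
    unfold nr
    simp only [COE_dl hτ hS _ h.1 h'.1, COE_eq h.1 h'.1, ne_eq]
  · exact fun i z h => h.1
  · refine ⟨⟨fun z => z.1.1, fun p => ⟨(p, 0), rfl⟩, ?_, fun p => rfl⟩, ?_⟩
    · rintro ⟨⟨p, i⟩, hz⟩
      obtain rfl : i = 0 := hz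
      rfl
    · intro n R v
      match n, R with
      | _, .un i =>
        show us (enc τ S) (.inl i) (v 0).1 ↔ S.RelMap (Sy.un i : Sy ι 1) _
        have h0 : (v 0).1.2 = 0 := (v 0).2
        have h1 : us (enc τ S) (.inl i) (v 0).1 ↔ us S i (v 0).1.1 :=
          ⟨fun h => h.2, fun h => ⟨h0, h⟩⟩
        rw [h1]
        unfold us
        have h2 : ![(v 0).1.1] = (fun z : {z : M × Fin 4 // lv (enc τ S) 0 z} => z.1.1) ∘ v := by
          funext k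
          rw [Subsingleton.elim k 0]
          rfl
        rw [h2]
        rfl
      | _, .lt b =>
        show dl (enc τ S) b (v 0).1 (v 1).1 ↔ S.RelMap (Sy.lt b : Sy ι 2) _
        have h1 : dl (enc τ S) b (v 0).1 (v 1).1 ↔ ls S b (v 0).1.1 (v 1).1.1 :=
          COE_dl hτ hS b (z := (v 0).1) (z' := (v 1).1) (v 0).2 (v 1).2
        refine h1.trans ?_
        unfold ls
        have h2 : ![(v 0).1.1, (v 1).1.1] =
            (fun z : {z : M × Fin 4 // lv (enc τ S) 0 z} => z.1.1) ∘ v := by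
          funext k
          match k with
          | 0 => rfl
          | 1 => rfl
        rw [h2]
        rfl

end Pool.Agent.OGD
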