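import Pool.Agent.OGD.St

/-!
OGD, module DMS: measurable decoding (helper2)
-/

set_option autoImplicit false
set_option linter.unusedVariables false
set_option linter.unusedSectionVars false

namespace Pool.Agent.OGD

open FirstOrder.Language Set
open scoped FirstOrder
open Pool.Agent.PMC (Sy LP ls us Two Bin)
open Pool.Agent.Helper6.Str (PerfK CtblK Iso Code toStr)

section meas

variable {ι : Type} {F : (ℕ → Bool) → (LP (ι ⊕ Fin 4)).Structure ℕ}

private theorem DMS_us (hc : ∀ (n : ℕ) (R : (LP (ι ⊕ Fin 4)).Relations n) (a : Fin n → ℕ),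
    IsClopen {x | (F x).RelMap R a}) (i : ι ⊕ Fin 4) (a : ℕ) :
    Measurable fun x => us (F x) i a :=
  measurableSet_setOfPred.1 (hc 1 (Sy.un i) ![a]).isOpen.measurableSet

private theorem DMS_ls (hc : ∀ (n : ℕ) (R : (LP (ι ⊕ Fin 4)).Relations n) (a : Fin n → ℕ),
    IsClopen {x | (F x).RelMap R a}) (b : Bool) (u v : ℕ) :
    Measurable fun x => ls (F x) b u v :=
  measurableSet_setOfPred.1 (hc 2 (Sy.lt b) ![u, v]).isOpen.measurableSet

private theorem DMS_lv (hc : ∀ (n : ℕ) (R : (LP (ι ⊕ Fin 4)).Relations n) (a : Fin n → ℕ),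
    IsClopen {x | (F x).RelMap R a}) (l : Fin 4) (u : ℕ) :
    Measurable fun x => lv (F x) l u := DMS_us hc _ _

private theorem DMS_xor {X : Type} [MeasurableSpace X] {p q : X → Prop} (hp : Measurable p)
    (hq : Measurable q) : Measurable fun x => Xor (p x) (q x) :=
  (hp.and hq.not).or (hq.and hp.not)

private theorem DMS_nxt (hc : ∀ (n : ℕ) (R : (LP (ι ⊕ Fin 4)).Relations n) (a : Fin n → ℕ),
    IsClopen {x | (F x).RelMap R a}) (l l' : Fin 4) (u v : ℕ) :
    Measurable fun x => nxt (F x) l l' u v := by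
  unfold nxt
  refine (DMS_lv hc _ _).and ((DMS_lv hc _ _).and ((DMS_ls hc _ _ _).and ?_))
  exact Measurable.forall fun w => ((DMS_lv hc _ _).or (DMS_lv hc _ _)).imp
    ((DMS_ls hc _ _ _).imp (DMS_ls hc _ _ _).not)

private theorem DMS_mt (hc : ∀ (n : ℕ) (R : (LP (ι ⊕ Fin 4)).Relations n) (a : Fin n → ℕ),
    IsClopen {x | (F x).RelMap R a}) (u v : ℕ) :
    Measurable fun x => mt (F x) u v := by
  unfold mt
  refine (DMS_lv hc _ _).and ((DMS_lv hc _ _).and
    (Measurable.exists fun z' => Measurable.exists fun w' =>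
      (DMS_nxt hc _ _ _ _).and ((DMS_nxt hc _ _ _ _).and ?_)))
  exact DMS_xor (DMS_xor (DMS_ls hc _ _ _) (DMS_ls hc _ _ _))
    (DMS_xor (DMS_ls hc _ _ _) (DMS_ls hc _ _ _))

private theorem DMS_dl (hc : ∀ (n : ℕ) (R : (LP (ι ⊕ Fin 4)).Relations n) (a : Fin n → ℕ),
    IsClopen {x | (F x).RelMap R a}) : ∀ (b : Bool) (u v : ℕ),
    Measurable fun x => dl (F x) b u v
  | true, u, v => DMS_ls hc _ _ _
  | false, u, v => by
    show Measurable fun x => ∃ w w', mt (F x) u w ∧ mt (F x) v w' ∧ ls (F x) true w w'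
    exact Measurable.exists fun w => Measurable.exists fun w' =>
      (DMS_mt hc _ _).and ((DMS_mt hc _ _).and (DMS_ls hc _ _ _))

open Classical in
private theorem DMS_count {X : Type} [MeasurableSpace X] {A : X → Set ℕ}
    (hA : ∀ p, Measurable fun x => p ∈ A x) (m : ℕ) :
    ∀ n, Measurable fun x => Nat.count (· ∈ A x) m = n := by
  induction m with
  | zero =>
    intro n
    simp only [Nat.count_zero]
    exact measurable_const
  | succ m ih =>
    intro n
    have h1 : (fun x => Nat.count (· ∈ A x) (m + 1) = n) = fun x =>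
        ((m ∈ A x ∧ Nat.count (· ∈ A x) m + 1 = n) ∨
          (¬ m ∈ A x ∧ Nat.count (· ∈ A x) m = n)) := by
      funext x
      simp only [Nat.count_succ]
      by_cases h : m ∈ A x <;> simp [h]
    rw [h1]
    refine ((hA m).and ?_).or ((hA m).not.and (ih n))
    cases n with
    | zero =>
      simp only [Nat.add_eq_zero_iff, one_ne_zero, and_false]
      exact measurable_const
    | succ n => simpa only [Nat.add_right_cancel_iff] using ih n

open Classical in
private theorem DMS_nth {X : Type} [MeasurableSpace X] {A : X → Set ℕ}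
    (hA : ∀ p, Measurable fun x => p ∈ A x) (hinf : ∀ x, (A x).Infinite) (n m : ℕ) :
    Measurable fun x => Nat.nth (· ∈ A x) n = m := by
  have h1 : (fun x => Nat.nth (· ∈ A x) n = m) = fun x =>
      (m ∈ A x ∧ Nat.count (· ∈ A x) m = n) := by
    funext x
    have hi : (Set.ofPred (· ∈ A x)).Infinite := hinf x
    apply propext
    constructor
    · rintro rfl
      exact ⟨Nat.nth_mem_of_infinite hi n, Nat.count_nth_of_infinite hi n⟩
    · rintro ⟨h1, rfl⟩
      exact Nat.nth_count h1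
  rw [h1]
  exact (hA m).and (DMS_count hA m n)

end meas

/-- the relations of `dec S` on the points of `S` -/
private def DMS_hol {ι M : Type} (S : (LP (ι ⊕ Fin 4)).Structure M) : ∀ {n : ℕ},
    (LP ι).Relations n → (Fin n → M) → Prop
  | _, .un i, v => us S (.inl i) (v 0)
  | _, .lt b, v => dl S b (v 0) (v 1)

private theorem DMS_holm {ι : Type} {F : (ℕ → Bool) → (LP (ι ⊕ Fin 4)).Structure ℕ}
    (hc : ∀ (n : ℕ) (R : (LP (ι ⊕ Fin 4)).Relations n) (a : Fin n → ℕ),
    IsClopen {x | (F x).RelMap R a}) : ∀ {n : ℕ} (R : (LP ι).Relations n) (w : Fin n → ℕ),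
    Measurable fun x => DMS_hol (F x) R w
  | _, .un i, w => DMS_us hc _ _
  | _, .lt b, w => DMS_dl hc _ _ _

private theorem DMS_inf {ι : Type} {τ : Typ} (S : (LP (ι ⊕ Fin 4)).Structure ℕ)
    (hS : Frame S τ) : {a | lv S 0 a}.Infinite := by
  intro hfin
  have h1 : (⋃ p ∈ {a | lv S 0 a} ×ˢ (univ : Set (Fin 4)), {w | pt S p.2 p.1 w}).Finite := by
    refine Set.Finite.biUnion (hfin.prod (Set.finite_univ)) fun p hp => ?_
    exact Set.Subsingleton.finite fun w hw w' hw' => hS.one _ _ _ _ hw hw'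
  refine Set.infinite_univ (α := ℕ) (h1.subset fun w _ => ?_)
  obtain ⟨l, hl⟩ := hS.lev w
  obtain ⟨z, hz⟩ := hS.sur l w hl
  exact Set.mem_biUnion (x := (z, l)) ⟨(hS.lvl _ _ _ hz).1, mem_univ _⟩ hz

theorem thm_DMS : St_DMS := by
  classical
  intro ι τ F hF hc
  let A : (ℕ → Bool) → Set ℕ := fun x => {a | lv (F x) 0 a}
  have hA : ∀ p, Measurable fun x => p ∈ A x := fun p => DMS_lv hc _ _
  have hAinf : ∀ x, (A x).Infinite := fun x => DMS_inf (F x) (hF x)
  let d : (ℕ → Bool) → ℕ → ℕ := fun x => Nat.nth (· ∈ A x)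
  have hd : ∀ x n, d x n ∈ A x := fun x n => Nat.nth_mem_of_infinite (hAinf x) n
  let f : ∀ x, ℕ → {z : ℕ // lv (F x) 0 z} := fun x n => ⟨d x n, hd x n⟩
  have hfinj : ∀ x, Function.Injective (f x) := by
    intro x n m hnm
    have h1 := congrArg Subtype.val hnm
    exact Nat.nth_injective (hAinf x) h1
  have hfsurj : ∀ x, Function.Surjective (f x) := by
    rintro x ⟨a, ha⟩
    refine ⟨Nat.count (· ∈ A x) a, ?_⟩
    have h1 : d x (Nat.count (· ∈ A x) a) = a := Nat.nth_count (p := (· ∈ A x)) ha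
    exact Subtype.ext h1
  let e : ∀ x, ℕ ≃ {z : ℕ // lv (F x) 0 z} := fun x => Equiv.ofBijective (f x) ⟨hfinj x, hfsurj x⟩
  refine ⟨fun x p => decide (DMS_hol (F x) p.2.1 fun i => d x (p.2.2 i)), ?_, ?_⟩
  · rw [measurable_pi_iff]
    rintro ⟨n, R, v⟩
    refine measurable_to_bool ?_
    have h1 : (fun x => decide (DMS_hol (F x) R fun i => d x (v i))) ⁻¹' {true} =
        {x | ∃ w : Fin n → ℕ, (∀ i, d x (v i) = w i) ∧ DMS_hol (F x) R w} := by
      ext x
      simp only [mem_preimage, mem_singleton_iff, decide_eq_true_eq, mem_ofPred_eq]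
      constructor
      · intro h
        exact ⟨_, fun i => rfl, h⟩
      · rintro ⟨w, hw, h⟩
        rwa [funext hw]
    show MeasurableSet ((fun x => decide (DMS_hol (F x) R fun i => d x (v i))) ⁻¹' {true})
    rw [h1]
    refine measurableSet_setOfPred.2 (Measurable.exists fun w => Measurable.and ?_ (DMS_holm hc R w))
    exact Measurable.forall fun i => DMS_nth hA hAinf _ _
  · intro x
    refine ⟨(e x).symm, fun n R v => ?_⟩
    show (dec (F x)).RelMap R v ↔
      decide (DMS_hol (F x) R fun i => d x ((⇑(e x).symm ∘ v) i)) = true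
    rw [decide_eq_true_eq]
    have hv : ∀ i, d x ((e x).symm (v i)) = (v i).1 := fun i =>
      congrArg Subtype.val ((e x).apply_symm_apply (v i))
    have hv' : (fun i => d x ((⇑(e x).symm ∘ v) i)) = fun i => (v i).1 := funext hv
    rw [hv']
    cases R with
    | un i => exact Iff.rfl
    | lt b => exact Iff.rfl

end Pool.Agent.OGD
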