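import Pool.Agent.OGD.Kit

/-!
OGD: hereditary classes of finite ordered digraphs and Vaught's conjecture (definitions).
-/

set_option autoImplicit false
set_option linter.unusedVariables false

namespace Pool.Agent.OGD

open FirstOrder.Language Set
open scoped FirstOrder
open Pool.Agent.PMC (Sy LP ls us Two)

/-! ### Classes of finite ordered digraphs -/

/-- strict linear orders -/
def Lin {M : Type} (r : M → M → Prop) : Prop :=
  (∀ x, ¬ r x x) ∧ (∀ x y z, r x y → r y z → r x z) ∧ ∀ x y, x ≠ y → r x y ∨ r y x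

/-- `K n` is a set of binary relations on `{0, ..., n - 1}` (with the natural order); `K` is closed
under suborders -/
def Her (K : ∀ n : ℕ, Set (Fin n → Fin n → Prop)) : Prop :=
  ∀ (m n : ℕ) (f : Fin m → Fin n), StrictMono f → ∀ r ∈ K n, (fun i j => r (f i) (f j)) ∈ K m

/-- `I 0 < I 1 < ... < I (k - 1)` -/
def Inc {k n : ℕ} (I : Fin k → Set (Fin n)) : Prop :=
  ∀ a b, a < b → ∀ x ∈ I a, ∀ y ∈ I b, x < y

/-- all `J b` contain `k` elements with pairwise different traces on `I a` -/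
def Ric {k n : ℕ} (r : Fin n → Fin n → Prop) (I J : Fin k → Set (Fin n)) : Prop :=
  ∀ a b, ∃ y : Fin k → Fin n, (∀ i, y i ∈ J b) ∧ ∀ i j, i ≠ j → ∃ x ∈ I a, ¬ (r x (y i) ↔ r x (y j))

/-- a grid of size `k` -/
def Grid {n : ℕ} (r : Fin n → Fin n → Prop) (k : ℕ) : Prop :=
  ∃ I J : Fin k → Set (Fin n), Inc I ∧ Inc J ∧ Ric r I J

/-- bounded grid rank -/
def Bdd (K : ∀ n : ℕ, Set (Fin n → Fin n → Prop)) : Prop :=
  ∃ k, ∀ n, ∀ r ∈ K n, ¬ Grid r k

/-- the finite ordered digraphs in `(M, lt, R)` are in `K` -/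
def Age {M : Type} (K : ∀ n : ℕ, Set (Fin n → Fin n → Prop)) (lt R : M → M → Prop) : Prop :=
  ∀ (m : ℕ) (z : Fin m → M), (∀ i j, i < j → lt (z i) (z j)) →
    (fun i j => R (z i) (z j)) ∈ K m

/-- a grid of size `k`, the rows before (`s = true`) or after the columns -/
def SGrid (s : Bool) {n : ℕ} (r : Fin n → Fin n → Prop) (k : ℕ) : Prop :=
  ∃ I J : Fin k → Set (Fin n), Inc I ∧ Inc J ∧ Ric r I J ∧
    ∀ a b, ∀ x ∈ I a, ∀ y ∈ J b, (s = true → x < y) ∧ (s = false → y < x)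

/-! ### Cells -/

/-- mixed difference: rows `u 0`, `u 1`, columns `v 2`, `v 3` -/
def Phi {M : Type} (R : M → M → Prop) (u v : Fin 4 → M) : Prop :=
  Xor' (Xor' (R (u 0) (v 2)) (R (u 1) (v 2))) (Xor' (R (u 0) (v 3)) (R (u 1) (v 3)))

/-- four points for every cell `(a, b)` of a `k × k` board: `0`, `1` in the rows `a`, `2`, `3` in the
columns `b` -/
structure Cel (s : Bool) {n : ℕ} (r : Fin n → Fin n → Prop) (k : ℕ)
    (e : Fin k → Fin k → Fin 4 → Fin n) : Prop where
  row : ∀ a a' b b' (i j : Fin 4), i.1 < 2 → j.1 < 2 → a < a' → e a b i < e a' b' j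
  col : ∀ a a' b b' (i j : Fin 4), 2 ≤ i.1 → 2 ≤ j.1 → b < b' → e a b i < e a' b' j
  inn : ∀ a b, e a b 0 < e a b 1 ∧ e a b 2 < e a b 3
  sep : ∀ a a' b b' (i j : Fin 4), i.1 < 2 → 2 ≤ j.1 →
    (s = true → e a b i < e a' b' j) ∧ (s = false → e a' b' j < e a b i)
  phi : ∀ a a' b b', Phi r (e a b) (e a' b') ↔ (a = a' ∧ b = b')

/-- the type of a uniform board: the side, the relation inside the cells, the relation between two
cells (in different rows and columns) by their position -/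
structure Typ where
  s : Bool
  t0 : Fin 4 → Fin 4 → Bool
  t : Bool → Bool → Fin 4 → Fin 4 → Bool

/-- `Phi` recognises the pairs of equal cells -/
def Good (τ : Typ) : Prop :=
  Phi (fun i j => τ.t0 i j = true) id id ∧ ∀ a b, ¬ Phi (fun i j => τ.t a b i j = true) id id

/-- uniform boards of type `τ` -/
structure Uni (τ : Typ) {n : ℕ} (r : Fin n → Fin n → Prop) (k : ℕ)
    (e : Fin k → Fin k → Fin 4 → Fin n) : Prop where
  cel : Cel τ.s r k e
  in0 : ∀ a b i j, r (e a b i) (e a b j) ↔ τ.t0 i j = true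
  out : ∀ a a' b b' i j, a ≠ a' → b ≠ b' →
    (r (e a b i) (e a' b' j) ↔ τ.t (decide (a < a')) (decide (b < b')) i j = true)

/-! ### The ordered digraph of two linear orders -/

section
variable {M : Type} (lt : Bool → M → M → Prop) (τ : Typ)

/-- the order on `M × {0, 1, 2, 3}`: levels `0`, `1` by `lt true`, levels `2`, `3` by `lt false` -/
def nlt (x y : M × Fin 4) : Prop :=
  (x.2.1 < 2 ∧ y.2.1 < 2 ∧ (lt true x.1 y.1 ∨ (x.1 = y.1 ∧ x.2 < y.2))) ∨
  (2 ≤ x.2.1 ∧ 2 ≤ y.2.1 ∧ (lt false x.1 y.1 ∨ (x.1 = y.1 ∧ x.2 < y.2))) ∨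
  (x.2.1 < 2 ∧ 2 ≤ y.2.1 ∧ τ.s = true) ∨ (2 ≤ x.2.1 ∧ y.2.1 < 2 ∧ τ.s = false)

/-- the relation on `M × {0, 1, 2, 3}` -/
def nr (x y : M × Fin 4) : Prop :=
  (x.1 = y.1 ∧ τ.t0 x.2 y.2 = true) ∨
  (x.1 ≠ y.1 ∧ ∃ a b : Bool, (a = true ↔ lt true x.1 y.1) ∧ (b = true ↔ lt false x.1 y.1) ∧
    τ.t a b x.2 y.2 = true)

end

/-- all structures `(M × {0, 1, 2, 3}, nlt, nr)` of two linear orders have age in `K` -/
def AgeN (K : ∀ n : ℕ, Set (Fin n → Fin n → Prop)) (τ : Typ) : Prop :=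
  ∀ (M : Type) (lt : Bool → M → M → Prop), (∀ b, Lin (lt b)) → Age K (nlt lt τ) (nr lt τ)

/-! ### Coding -/

section
variable {ι M : Type}

/-- the code of a structure with two orders -/
@[instance_reducible]
def enc (τ : Typ) (S : (LP ι).Structure M) : (LP (ι ⊕ Fin 4)).Structure (M × Fin 4) where
  funMap := fun f _ => Empty.elim f
  RelMap := fun {n} R => match n, R with
    | _, .un (.inl i) => fun v => (v 0).2 = 0 ∧ us S i (v 0).1
    | _, .un (.inr l) => fun v => (v 0).2 = l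
    | _, .lt true => fun v => nlt (ls S) τ (v 0) (v 1)
    | _, .lt false => fun v => nr (ls S) τ (v 0) (v 1)

variable (S : (LP (ι ⊕ Fin 4)).Structure M)

/-- level `l` -/
def lv (l : Fin 4) (z : M) : Prop := us S (.inr l) z

/-- `w` (level `l'`) is the next point after `z` (level `l`) in these two levels -/
def nxt (l l' : Fin 4) (z w : M) : Prop :=
  lv S l z ∧ lv S l' w ∧ ls S true z w ∧ ∀ v, lv S l v ∨ lv S l' v → ls S true z v → ¬ ls S true v w

/-- `w` (level `2`) is matched with `z` (level `0`) -/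
def mt (z w : M) : Prop :=
  lv S 0 z ∧ lv S 2 w ∧ ∃ z' w', nxt S 0 1 z z' ∧ nxt S 2 3 w w' ∧
    Phi (ls S false) ![z, z', z, z] ![w, w, w, w']

/-- `w` is the point of level `l` over `z` (`z` of level `0`) -/
def pt (l : Fin 4) (z w : M) : Prop :=
  match l with
  | 0 => lv S 0 z ∧ w = z
  | 1 => nxt S 0 1 z w
  | 2 => mt S z w
  | 3 => ∃ v, mt S z v ∧ nxt S 2 3 v w

/-- the decoded orders (on level `0`) -/
def dl (b : Bool) (z z' : M) : Prop :=
  match b with
  | true => ls S true z z'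
  | false => ∃ v v', mt S z v ∧ mt S z' v' ∧ ls S true v v'

/-- the decoded structure -/
@[instance_reducible]
def dec : (LP ι).Structure {z : M // lv S 0 z} where
  funMap := fun f _ => Empty.elim f
  RelMap := fun {n} R => match n, R with
    | _, .un i => fun v => us S (.inl i) (v 0).1
    | _, .lt b => fun v => dl S b (v 0).1 (v 1).1

/-- the codes -/
structure Frame (τ : Typ) : Prop where
  lin : Lin (ls S true)
  lev : ∀ z, ∃ l, lv S l z
  unq : ∀ z l l', lv S l z → lv S l' z → l = l'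
  ex : ∀ z l, lv S 0 z → ∃ w, pt S l z w
  one : ∀ l z w w', pt S l z w → pt S l z w' → w = w'
  lvl : ∀ l z w, pt S l z w → lv S 0 z ∧ lv S l w
  sur : ∀ l w, lv S l w → ∃ z, pt S l z w
  inj : ∀ l z z' w, pt S l z w → pt S l z' w → z = z'
  ord : ∀ l l' z z' w w', pt S l z w → pt S l' z' w' →
    (ls S true w w' ↔ nlt (dl S) τ (z, l) (z', l'))
  rel : ∀ l l' z z' w w', pt S l z w → pt S l' z' w' →
    (ls S false w w' ↔ nr (dl S) τ (z, l) (z', l'))
  un : ∀ i z, us S (.inl i) z → lv S 0 z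

end

end Pool.Agent.OGD
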