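import Pool.Agent.OGD.St

/-!
OGD, module FRM (helper72): `Frame` is a set of sentences.
-/

set_option autoImplicit false
set_option linter.unusedVariables false

namespace Pool.Agent.OGD

open FirstOrder.Language Set
open scoped FirstOrder
open Pool.Agent.PMC (Sy LP ls us Two Bin)

section

variable {ι : Type} {n : ℕ} {t t' : (M : Type) → (Fin n → M) → M}

private theorem FRM_xor {ι : Type} {n : ℕ}
    {P Q : (M : Type) → (LP ι).Structure M → (Fin n → M) → Prop}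
    (hP : FO_Df ι n P) (hQ : FO_Df ι n Q) : FO_Df ι n fun M S v => Xor' (P M S v) (Q M S v) :=
  FO_or (FO_and hP (FO_not hQ)) (FO_and hQ (FO_not hP))

theorem FRM_lv (l : Fin 4) (h : FO_T n t) :
    FO_Df (ι ⊕ Fin 4) n fun M S v => lv S l (t M v) := FO_un (Sum.inr l) h

theorem FRM_nxt (l l' : Fin 4) (h : FO_T n t) (h' : FO_T n t') :
    FO_Df (ι ⊕ Fin 4) n fun M S v => nxt S l l' (t M v) (t' M v) :=
  FO_and (FRM_lv l h) (FO_and (FRM_lv l' h') (FO_and (FO_ls true h h')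
    (FO_all (B := fun M S v y => lv S l y ∨ lv S l' y → ls S true (t M v) y →
        ¬ ls S true y (t' M v))
      (FO_imp (FO_or (FRM_lv l (FO_v _)) (FRM_lv l' (FO_v _)))
        (FO_imp (FO_ls true (FO_up h) (FO_v _)) (FO_not (FO_ls true (FO_v _) (FO_up h'))))))))

theorem FRM_mt (h : FO_T n t) (h' : FO_T n t') :
    FO_Df (ι ⊕ Fin 4) n fun M S v => mt S (t M v) (t' M v) := by
  refine FO_and (FRM_lv 0 h) (FO_and (FRM_lv 2 h') ?_)
  refine FO_ex (B := fun M S v z' => ∃ w', nxt S 0 1 (t M v) z' ∧ nxt S 2 3 (t' M v) w' ∧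
    Phi (ls S false) ![(t M v), z', (t M v), (t M v)] ![(t' M v), (t' M v), (t' M v), w']) ?_
  refine FO_ex (B := fun M S v w' => nxt S 0 1 (t M (fun i => v i.castSucc)) (v (Fin.last n)) ∧
    nxt S 2 3 (t' M (fun i => v i.castSucc)) w' ∧
    Phi (ls S false) ![(t M (fun i => v i.castSucc)), v (Fin.last n),
      (t M (fun i => v i.castSucc)), (t M (fun i => v i.castSucc))]
      ![(t' M (fun i => v i.castSucc)), (t' M (fun i => v i.castSucc)),
        (t' M (fun i => v i.castSucc)), w']) ?_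
  refine FO_and (FRM_nxt 0 1 (FO_up (FO_up h)) (FO_up (FO_v _))) (FO_and
    (FRM_nxt 2 3 (FO_up (FO_up h')) (FO_v _)) ?_)
  exact FRM_xor
    (FRM_xor (FO_ls false (FO_up (FO_up h)) (FO_up (FO_up h')))
      (FO_ls false (FO_up (FO_v _)) (FO_up (FO_up h'))))
    (FRM_xor (FO_ls false (FO_up (FO_up h)) (FO_v _)) (FO_ls false (FO_up (FO_v _)) (FO_v _)))

theorem FRM_pt (l : Fin 4) (h : FO_T n t) (h' : FO_T n t') :
    FO_Df (ι ⊕ Fin 4) n fun M S v => pt S l (t M v) (t' M v) := by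
  match l with
  | 0 => exact FO_and (FRM_lv 0 h) (FO_eq h' h)
  | 1 => exact FRM_nxt 0 1 h h'
  | 2 => exact FRM_mt h h'
  | 3 =>
    exact FO_ex (B := fun M S v u => mt S (t M v) u ∧ nxt S 2 3 u (t' M v))
      (FO_and (FRM_mt (FO_up h) (FO_v _)) (FRM_nxt 2 3 (FO_v _) (FO_up h')))

theorem FRM_dl (b : Bool) (h : FO_T n t) (h' : FO_T n t') :
    FO_Df (ι ⊕ Fin 4) n fun M S v => dl S b (t M v) (t' M v) := by
  match b with
  | true => exact FO_ls true h h'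
  | false =>
    refine FO_ex (B := fun M S v u => ∃ u', mt S (t M v) u ∧ mt S (t' M v) u' ∧
      ls S true u u') ?_
    refine FO_ex (B := fun M S v u' => mt S (t M (fun i => v i.castSucc)) (v (Fin.last n)) ∧
      mt S (t' M (fun i => v i.castSucc)) u' ∧ ls S true (v (Fin.last n)) u') ?_
    exact FO_and (FRM_mt (FO_up (FO_up h)) (FO_up (FO_v _))) (FO_and
      (FRM_mt (FO_up (FO_up h')) (FO_v _)) (FO_ls true (FO_up (FO_v _)) (FO_v _)))

theorem FRM_nlt (τ : Typ) (l l' : Fin 4) (h : FO_T n t) (h' : FO_T n t') :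
    FO_Df (ι ⊕ Fin 4) n fun M S v => nlt (dl S) τ (t M v, l) (t' M v, l') :=
  FO_or (FO_and (FO_const (l.1 < 2)) (FO_and (FO_const (l'.1 < 2)) (FO_or (FRM_dl true h h')
    (FO_and (FO_eq h h') (FO_const (l < l'))))))
  (FO_or (FO_and (FO_const (2 ≤ l.1)) (FO_and (FO_const (2 ≤ l'.1)) (FO_or (FRM_dl false h h')
    (FO_and (FO_eq h h') (FO_const (l < l'))))))
  (FO_or (FO_and (FO_const (l.1 < 2)) (FO_and (FO_const (2 ≤ l'.1)) (FO_const (τ.s = true))))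
    (FO_and (FO_const (2 ≤ l.1)) (FO_and (FO_const (l'.1 < 2)) (FO_const (τ.s = false))))))

theorem FRM_nr (τ : Typ) (l l' : Fin 4) (h : FO_T n t) (h' : FO_T n t') :
    FO_Df (ι ⊕ Fin 4) n fun M S v => nr (dl S) τ (t M v, l) (t' M v, l') :=
  FO_or (FO_and (FO_eq h h') (FO_const (τ.t0 l l' = true)))
    (FO_and (FO_not (FO_eq h h')) (FO_fex fun a : Bool => FO_fex fun b : Bool =>
      FO_and (FO_iff (FO_const (a = true)) (FRM_dl true h h'))
        (FO_and (FO_iff (FO_const (b = true)) (FRM_dl false h h'))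
          (FO_const (τ.t a b l l' = true)))))

end

theorem thm_FRM : St_FRM := by
  intro ι τ
  have e1 : FO_Ax (ι ⊕ Fin 4) fun M S => Lin (ls S true) := by
    refine FO_sen (FO_and (FO_all ?_) (FO_and (FO_all (FO_all (FO_all ?_)))
      (FO_all (FO_all ?_))))
    · exact FO_not (FO_ls _ (FO_v _) (FO_v _))
    · exact FO_imp (FO_ls _ (FO_v _) (FO_v _)) (FO_imp (FO_ls _ (FO_v _) (FO_v _))
        (FO_ls _ (FO_v _) (FO_v _)))
    · exact FO_imp (FO_not (FO_eq (FO_v _) (FO_v _))) (FO_or (FO_ls _ (FO_v _) (FO_v _))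
        (FO_ls _ (FO_v _) (FO_v _)))
  have e2 : FO_Ax (ι ⊕ Fin 4) fun M S => ∀ z, ∃ l, lv S l z :=
    FO_sen (FO_all (FO_fex fun l => FRM_lv l (FO_v _)))
  have e3 : FO_Ax (ι ⊕ Fin 4) fun M S => ∀ z l l', lv S l z → lv S l' z → l = l' :=
    FO_sen (FO_all (FO_fin fun l => FO_fin fun l' => FO_imp (FRM_lv l (FO_v _))
      (FO_imp (FRM_lv l' (FO_v _)) (FO_const _))))
  have e4 : FO_Ax (ι ⊕ Fin 4) fun M S => ∀ z l, lv S 0 z → ∃ w, pt S l z w :=
    FO_sen (FO_all (FO_fin fun l => FO_imp (FRM_lv 0 (FO_v _))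
      (FO_ex (FRM_pt l (FO_v _) (FO_v _)))))
  have e5 : FO_Ax (ι ⊕ Fin 4) fun M S => ∀ l z w w', pt S l z w → pt S l z w' → w = w' :=
    FO_fam fun l => FO_sen (FO_all (FO_all (FO_all (FO_imp (FRM_pt l (FO_v _) (FO_v _))
      (FO_imp (FRM_pt l (FO_v _) (FO_v _)) (FO_eq (FO_v _) (FO_v _)))))))
  have e6 : FO_Ax (ι ⊕ Fin 4) fun M S => ∀ l z w, pt S l z w → lv S 0 z ∧ lv S l w :=
    FO_fam fun l => FO_sen (FO_all (FO_all (FO_imp (FRM_pt l (FO_v _) (FO_v _))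
      (FO_and (FRM_lv 0 (FO_v _)) (FRM_lv l (FO_v _))))))
  have e7 : FO_Ax (ι ⊕ Fin 4) fun M S => ∀ l w, lv S l w → ∃ z, pt S l z w :=
    FO_fam fun l => FO_sen (FO_all (FO_imp (FRM_lv l (FO_v _))
      (FO_ex (FRM_pt l (FO_v _) (FO_v _)))))
  have e8 : FO_Ax (ι ⊕ Fin 4) fun M S => ∀ l z z' w, pt S l z w → pt S l z' w → z = z' :=
    FO_fam fun l => FO_sen (FO_all (FO_all (FO_all (FO_imp (FRM_pt l (FO_v _) (FO_v _))
      (FO_imp (FRM_pt l (FO_v _) (FO_v _)) (FO_eq (FO_v _) (FO_v _)))))))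
  have e9 : FO_Ax (ι ⊕ Fin 4) fun M S => ∀ l l' z z' w w', pt S l z w → pt S l' z' w' →
      (ls S true w w' ↔ nlt (dl S) τ (z, l) (z', l')) :=
    FO_fam fun l => FO_fam fun l' => FO_sen (FO_all (FO_all (FO_all (FO_all
      (FO_imp (FRM_pt l (FO_v _) (FO_v _)) (FO_imp (FRM_pt l' (FO_v _) (FO_v _))
        (FO_iff (FO_ls true (FO_v _) (FO_v _)) (FRM_nlt τ l l' (FO_v _) (FO_v _)))))))))
  have e10 : FO_Ax (ι ⊕ Fin 4) fun M S => ∀ l l' z z' w w', pt S l z w → pt S l' z' w' →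
      (ls S false w w' ↔ nr (dl S) τ (z, l) (z', l')) :=
    FO_fam fun l => FO_fam fun l' => FO_sen (FO_all (FO_all (FO_all (FO_all
      (FO_imp (FRM_pt l (FO_v _) (FO_v _)) (FO_imp (FRM_pt l' (FO_v _) (FO_v _))
        (FO_iff (FO_ls false (FO_v _) (FO_v _)) (FRM_nr τ l l' (FO_v _) (FO_v _)))))))))
  have e11 : FO_Ax (ι ⊕ Fin 4) fun M S => ∀ (i : ι) z, us S (.inl i) z → lv S 0 z :=
    FO_fam fun i => FO_sen (FO_all (FO_imp (FO_un _ (FO_v _)) (FRM_lv 0 (FO_v _))))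
  obtain ⟨F, hF⟩ := FO_both e1 (FO_both e2 (FO_both e3 (FO_both e4 (FO_both e5 (FO_both e6
    (FO_both e7 (FO_both e8 (FO_both e9 (FO_both e10 e11)))))))))
  refine ⟨F, fun M S => ?_⟩
  rw [hF]
  constructor
  · rintro ⟨h1, h2, h3, h4, h5, h6, h7, h8, h9, h10, h11⟩
    exact ⟨h1, h2, h3, h4, h5, h6, h7, h8, h9, h10, h11⟩
  · intro h
    exact ⟨h.lin, h.lev, h.unq, h.ex, h.one, h.lvl, h.sur, h.inj, h.ord, h.rel, h.un⟩

end Pool.Agent.OGD
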