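import Pool.Agent.OGD.St

/-!
OGD [FUN]: coding and decoding are functorial.
-/

set_option autoImplicit false
set_option linter.unusedVariables false

namespace Pool.Agent.OGD

open FirstOrder.Language Set
open scoped FirstOrder
open Pool.Agent.PMC (Sy LP ls us)
open Pool.Agent.Helper6.Str (Iso RelIso)

section

variable {κ M M' : Type} {S : (LP κ).Structure M} {S' : (LP κ).Structure M'} {e : M ≃ M'}

private theorem FUN_us (h : RelIso S S' e) (i : κ) (x : M) : us S i x ↔ us S' i (e x) := by
  have h1 := h 1 (Sy.un i : Sy κ 1) ![x]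
  have h2 : (e ∘ ![x] : Fin 1 → M') = ![e x] := by
    funext k
    rw [Subsingleton.elim k 0]
    rfl
  rw [h2] at h1
  exact h1

private theorem FUN_ls (h : RelIso S S' e) (b : Bool) (x y : M) :
    ls S b x y ↔ ls S' b (e x) (e y) := by
  have h1 := h 2 (Sy.lt b : Sy κ 2) ![x, y]
  have h2 : (e ∘ ![x, y] : Fin 2 → M') = ![e x, e y] := by
    funext k
    match k with
    | 0 => rfl
    | 1 => rfl
  rw [h2] at h1
  exact h1

end

section

variable {M M' : Type} {lt : Bool → M → M → Prop} {lt' : Bool → M' → M' → Prop} {e : M ≃ M'}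

private theorem FUN_nlt (h : ∀ b x y, lt b x y ↔ lt' b (e x) (e y)) (τ : Typ) (x y : M × Fin 4) :
    nlt lt τ x y ↔ nlt lt' τ (e x.1, x.2) (e y.1, y.2) := by
  unfold nlt
  rw [h, h, ← e.injective.eq_iff (a := x.1) (b := y.1)]

private theorem FUN_nr (h : ∀ b x y, lt b x y ↔ lt' b (e x) (e y)) (τ : Typ) (x y : M × Fin 4) :
    nr lt τ x y ↔ nr lt' τ (e x.1, x.2) (e y.1, y.2) := by
  unfold nr
  rw [h, h, ← e.injective.eq_iff (a := x.1) (b := y.1), Ne, Ne,
    ← e.injective.eq_iff (a := x.1) (b := y.1)]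

end

section

variable {ι M M' : Type} {S : (LP (ι ⊕ Fin 4)).Structure M} {S' : (LP (ι ⊕ Fin 4)).Structure M'}
  {e : M ≃ M'}

private theorem FUN_lv (h : RelIso S S' e) (l : Fin 4) (z : M) : lv S l z ↔ lv S' l (e z) :=
  FUN_us h _ z

private theorem FUN_nxt (h : RelIso S S' e) (l l' : Fin 4) (z w : M) :
    nxt S l l' z w ↔ nxt S' l l' (e z) (e w) := by
  unfold nxt
  rw [FUN_lv h, FUN_lv h, FUN_ls h, ← e.forall_congr_right (q := fun v =>
    (lv S' l v ∨ lv S' l' v → ls S' true (e z) v → ¬ ls S' true v (e w)))]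
  refine and_congr_right fun _ => and_congr_right fun _ => and_congr_right fun _ =>
    forall_congr' fun v => ?_
  rw [FUN_lv h, FUN_lv h, FUN_ls h true z v, FUN_ls h true v w]

private theorem FUN_mt (h : RelIso S S' e) (z w : M) : mt S z w ↔ mt S' (e z) (e w) := by
  unfold mt
  rw [FUN_lv h, FUN_lv h, ← e.exists_congr_right (q := fun z' => ∃ w',
    nxt S' 0 1 (e z) z' ∧ nxt S' 2 3 (e w) w' ∧
      Phi (ls S' false) ![e z, z', e z, e z] ![e w, e w, e w, w'])]
  refine and_congr_right fun _ => and_congr_right fun _ => exists_congr fun z' => ?_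
  rw [← e.exists_congr_right (q := fun w' => nxt S' 0 1 (e z) (e z') ∧ nxt S' 2 3 (e w) w' ∧
      Phi (ls S' false) ![e z, e z', e z, e z] ![e w, e w, e w, w'])]
  refine exists_congr fun w' => ?_
  rw [FUN_nxt h, FUN_nxt h]
  refine and_congr_right fun _ => and_congr_right fun _ => ?_
  have h1 : Phi (ls S false) ![z, z', z, z] ![w, w, w, w'] ↔
      Xor (Xor (ls S false z w) (ls S false z' w)) (Xor (ls S false z w') (ls S false z' w')) :=
    Iff.rfl
  have h2 : Phi (ls S' false) ![e z, e z', e z, e z] ![e w, e w, e w, e w'] ↔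
      Xor (Xor (ls S' false (e z) (e w)) (ls S' false (e z') (e w)))
        (Xor (ls S' false (e z) (e w')) (ls S' false (e z') (e w'))) := Iff.rfl
  rw [h1, h2, FUN_ls h, FUN_ls h, FUN_ls h, FUN_ls h]

private theorem FUN_dl (h : RelIso S S' e) (b : Bool) (z z' : M) :
    dl S b z z' ↔ dl S' b (e z) (e z') := by
  cases b with
  | true => exact FUN_ls h true z z'
  | false =>
    show (∃ v v', mt S z v ∧ mt S z' v' ∧ ls S true v v') ↔
      ∃ v v', mt S' (e z) v ∧ mt S' (e z') v' ∧ ls S' true v v'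
    rw [← e.exists_congr_right (q := fun v => ∃ v', mt S' (e z) v ∧ mt S' (e z') v' ∧
      ls S' true v v')]
    refine exists_congr fun v => ?_
    rw [← e.exists_congr_right (q := fun v' => mt S' (e z) (e v) ∧ mt S' (e z') v' ∧
      ls S' true (e v) v')]
    refine exists_congr fun v' => ?_
    rw [FUN_mt h, FUN_mt h, FUN_ls h]

end

theorem thm_FUN : St_FUN := by
  intro ι M M' τ
  constructor
  · rintro S S' ⟨e, he⟩
    refine ⟨e.prodCongr (Equiv.refl (Fin 4)), fun n R v => ?_⟩
    have hls : ∀ b x y, ls S b x y ↔ ls S' b (e x) (e y) := fun b x y => FUN_ls he b x y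
    cases R with
    | un i =>
      cases i with
      | inl i =>
        show ((v 0).2 = 0 ∧ us S i (v 0).1) ↔ ((v 0).2 = 0 ∧ us S' i (e (v 0).1))
        rw [FUN_us he]
      | inr l => exact Iff.rfl
    | lt b =>
      cases b with
      | true => exact FUN_nlt hls τ (v 0) (v 1)
      | false => exact FUN_nr hls τ (v 0) (v 1)
  · rintro S S' ⟨e, he⟩
    refine ⟨e.subtypeEquiv fun z => FUN_lv he 0 z, fun n R v => ?_⟩
    cases R with
    | un i => exact FUN_us he (.inl i) (v 0).1
    | lt b => exact FUN_dl he b (v 0).1 (v 1).1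

end Pool.Agent.OGD
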