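import Pool.Agent.OGD.St

/-!
OGD: module GRW (helper16), growth of the class of a good type.
-/

set_option autoImplicit false
set_option linter.unusedVariables false
set_option linter.deprecated false

namespace Pool.Agent.OGD

/-- the two orders of a permutation -/
private def GRW_lt {n : ℕ} (π : Equiv.Perm (Fin n)) (b : Bool) (p q : Fin n) : Prop :=
  match b with
  | true => p < q
  | false => π p < π q

private theorem GRW_lin {n : ℕ} (π : Equiv.Perm (Fin n)) (b : Bool) : Lin (GRW_lt π b) := by
  cases b with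
  | true =>
    refine ⟨fun x => lt_irrefl _, fun x y z => lt_trans, fun x y h => lt_or_gt_of_ne h⟩
  | false =>
    refine ⟨fun x => lt_irrefl (π x), fun x y z => lt_trans (a := π x) (b := π y) (c := π z),
      fun x y h => lt_or_gt_of_ne (a := π x) (b := π y) fun h' => h (π.injective h')⟩

/-- the place inside its half -/
private def GRW_q {n : ℕ} (t : Fin (4 * n)) : Fin n :=
  ⟨(if t.1 < 2 * n then t.1 else t.1 - 2 * n) / 2, by
    have := t.2
    split_ifs <;> omega⟩

/-- parity -/
private def GRW_e {n : ℕ} (t : Fin (4 * n)) : Bool := decide (t.1 % 2 = 1)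

/-- the increasing enumeration -/
private def GRW_z {n : ℕ} (s : Bool) (π : Equiv.Perm (Fin n)) (t : Fin (4 * n)) : Fin n × Fin 4 :=
  if (decide (t.1 < 2 * n)) = s then (GRW_q t, if GRW_e t = true then 1 else 0)
  else (π.symm (GRW_q t), if GRW_e t = true then 3 else 2)

private theorem GRW_mono {n : ℕ} (τ : Typ) (π : Equiv.Perm (Fin n)) (i j : Fin (4 * n))
    (h : i < j) : nlt (GRW_lt π) τ (GRW_z τ.s π i) (GRW_z τ.s π j) := by
  have hi := i.2
  have hj := j.2
  have hij : i.1 < j.1 := h
  have hq : (i.1 < 2 * n ↔ j.1 < 2 * n) → GRW_q i < GRW_q j ∨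
      (GRW_q i = GRW_q j ∧ GRW_e i = false ∧ GRW_e j = true) := by
    intro hh
    simp only [GRW_q, GRW_e, Fin.lt_def, Fin.ext_iff, decide_eq_true_eq, decide_eq_false_iff_not]
    split_ifs <;> omega
  by_cases h1 : decide (i.1 < 2 * n) = τ.s
  · by_cases h2 : decide (j.1 < 2 * n) = τ.s
    · have h3 : i.1 < 2 * n ↔ j.1 < 2 * n := by
        rw [← decide_eq_decide, h1, h2]
      simp only [GRW_z, if_pos h1, if_pos h2]
      refine Or.inl ⟨?_, ?_, ?_⟩
      · split_ifs <;> simp
      · split_ifs <;> simp
      · rcases hq h3 with h4 | ⟨h4, h5, h6⟩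
        · exact Or.inl h4
        · refine Or.inr ⟨h4, ?_⟩
          simp [h5, h6]
    · have h3 : i.1 < 2 * n ∧ ¬ j.1 < 2 * n := by
        by_contra h4
        have : i.1 < 2 * n ↔ j.1 < 2 * n := by omega
        rw [← decide_eq_decide] at this
        exact h2 (this ▸ h1)
      have hs : τ.s = true := by
        rw [← h1]
        exact decide_eq_true h3.1
      simp only [GRW_z, if_pos h1, if_neg h2]
      refine Or.inr (Or.inr (Or.inl ⟨?_, ?_, hs⟩))
      · split_ifs <;> simp
      · split_ifs <;> simp
  · by_cases h2 : decide (j.1 < 2 * n) = τ.s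
    · have h3 : i.1 < 2 * n ∧ ¬ j.1 < 2 * n := by
        by_contra h4
        have : i.1 < 2 * n ↔ j.1 < 2 * n := by omega
        rw [← decide_eq_decide] at this
        exact h1 (this ▸ h2)
      have hs : τ.s = false := by
        rw [← h2]
        exact decide_eq_false h3.2
      simp only [GRW_z, if_neg h1, if_pos h2]
      refine Or.inr (Or.inr (Or.inr ⟨?_, ?_, hs⟩))
      · split_ifs <;> simp
      · split_ifs <;> simp
    · have h3 : i.1 < 2 * n ↔ j.1 < 2 * n := by
        rw [← decide_eq_decide]
        cases hs : τ.s <;> rw [hs] at h1 h2 <;> revert h1 h2 <;>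
          cases decide (i.1 < 2 * n) <;> cases decide (j.1 < 2 * n) <;> simp
      simp only [GRW_z, if_neg h1, if_neg h2]
      refine Or.inr (Or.inl ⟨?_, ?_, ?_⟩)
      · split_ifs <;> simp
      · split_ifs <;> simp
      · rcases hq h3 with h4 | ⟨h4, h5, h6⟩
        · refine Or.inl ?_
          show π (π.symm _) < π (π.symm _)
          rw [π.apply_symm_apply, π.apply_symm_apply]
          exact h4
        · refine Or.inr ⟨by rw [h4], ?_⟩
          simp [h5, h6]

/-- the places of the levels `0`, `1` -/
private theorem GRW_row {n : ℕ} (s : Bool) (p : Fin n) (b : Bool) :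
    ∃ t : Fin (4 * n), ∀ π : Equiv.Perm (Fin n), GRW_z s π t = (p, if b = true then 1 else 0) := by
  have hp := p.2
  refine ⟨⟨(if s = true then 0 else 2 * n) + 2 * p.1 + (if b = true then 1 else 0), ?_⟩, fun π => ?_⟩
  · split_ifs <;> omega
  · have h1 : decide ((if s = true then 0 else 2 * n) + 2 * p.1 + (if b = true then 1 else 0)
        < 2 * n) = s := by
      cases s <;> cases b <;> simp; all_goals omega
    simp only [GRW_z, h1, if_true]
    refine Prod.ext ?_ ?_
    · simp only [GRW_q, Fin.ext_iff]
      split_ifs <;> omega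
    · have h2 : GRW_e (⟨(if s = true then 0 else 2 * n) + 2 * p.1 + (if b = true then 1 else 0),
          by split_ifs <;> omega⟩ : Fin (4 * n)) = b := by
        simp only [GRW_e]
        cases s <;> cases b <;> simp; all_goals omega
      simp only [h2]

/-- the places of the levels `2`, `3` -/
private theorem GRW_col {n : ℕ} (s : Bool) (q : Fin n) (b : Bool) :
    ∃ t : Fin (4 * n), ∀ π : Equiv.Perm (Fin n),
      GRW_z s π t = (π.symm q, if b = true then 3 else 2) := by
  have hp := q.2
  refine ⟨⟨(if s = true then 2 * n else 0) + 2 * q.1 + (if b = true then 1 else 0), ?_⟩, fun π => ?_⟩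
  · split_ifs <;> omega
  · have h1 : ¬ decide ((if s = true then 2 * n else 0) + 2 * q.1 + (if b = true then 1 else 0)
        < 2 * n) = s := by
      cases s <;> cases b <;> simp; all_goals omega
    simp only [GRW_z, if_neg h1]
    refine Prod.ext ?_ ?_
    · have : GRW_q (⟨(if s = true then 2 * n else 0) + 2 * q.1 + (if b = true then 1 else 0),
          by split_ifs <;> omega⟩ : Fin (4 * n)) = q := by
        simp only [GRW_q, Fin.ext_iff]
        split_ifs <;> omega
      simp only [this]
    · have h2 : GRW_e (⟨(if s = true then 2 * n else 0) + 2 * q.1 + (if b = true then 1 else 0),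
          by split_ifs <;> omega⟩ : Fin (4 * n)) = b := by
        simp only [GRW_e]
        cases s <;> cases b <;> simp; all_goals omega
      simp only [h2]

private theorem GRW_phi {n : ℕ} (τ : Typ) (hτ : Good τ) (lt : Bool → Fin n → Fin n → Prop)
    (p q : Fin n) : Xor (Xor (nr lt τ (p, 0) (q, 2)) (nr lt τ (p, 1) (q, 2)))
      (Xor (nr lt τ (p, 0) (q, 3)) (nr lt τ (p, 1) (q, 3))) ↔ p = q := by
  classical
  by_cases h : p = q
  · subst h
    have h1 : ∀ i j, nr lt τ (p, i) (p, j) ↔ τ.t0 i j = true := fun i j => by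
      simp [nr]
    rw [h1, h1, h1, h1]
    exact ⟨fun _ => rfl, fun _ => hτ.1⟩
  · have h1 : ∀ i j, nr lt τ (p, i) (q, j) ↔
        τ.t (decide (lt true p q)) (decide (lt false p q)) i j = true := fun i j => by
      constructor
      · rintro (⟨h2, _⟩ | ⟨_, a, b, ha, hb, h3⟩)
        · exact absurd h2 h
        · have ha' : a = decide (lt true p q) := by
            cases a <;> simp_all
          have hb' : b = decide (lt false p q) := by
            cases b <;> simp_all
          rw [← ha', ← hb']
          exact h3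
      · intro h3
        exact Or.inr ⟨h, _, _, decide_eq_true_iff, decide_eq_true_iff, h3⟩
    rw [h1, h1, h1, h1]
    exact ⟨fun h2 => absurd h2 (hτ.2 _ _), fun h2 => absurd h2 h⟩

theorem thm_GRW : St_GRW := by
  classical
  intro K τ hτ hK n
  let R : Equiv.Perm (Fin n) → Fin (4 * n) → Fin (4 * n) → Prop :=
    fun π i j => nr (GRW_lt π) τ (GRW_z τ.s π i) (GRW_z τ.s π j)
  have hR : ∀ π, R π ∈ K (4 * n) := fun π =>
    hK (Fin n) (GRW_lt π) (GRW_lin π) (4 * n) (GRW_z τ.s π) (GRW_mono τ π)
  have hinj : Function.Injective R := by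
    intro π σ h
    have key : ∀ p q : Fin n, p = π.symm q ↔ p = σ.symm q := by
      intro p q
      obtain ⟨a0, ha0⟩ := GRW_row τ.s p false
      obtain ⟨a1, ha1⟩ := GRW_row τ.s p true
      obtain ⟨b0, hb0⟩ := GRW_col τ.s q false
      obtain ⟨b1, hb1⟩ := GRW_col τ.s q true
      have e1 := GRW_phi τ hτ (GRW_lt π) p (π.symm q)
      have e2 := GRW_phi τ hτ (GRW_lt σ) p (σ.symm q)
      have f00 : R π a0 b0 = R σ a0 b0 := congrFun (congrFun h a0) b0
      have f10 : R π a1 b0 = R σ a1 b0 := congrFun (congrFun h a1) b0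
      have f01 : R π a0 b1 = R σ a0 b1 := congrFun (congrFun h a0) b1
      have f11 : R π a1 b1 = R σ a1 b1 := congrFun (congrFun h a1) b1
      simp only [R, ha0, ha1, hb0, hb1, if_true, Bool.false_eq_true, if_false] at f00 f10 f01 f11
      rw [f00, f10, f01, f11] at e1
      exact e1.symm.trans e2
    have h2 : π.symm = σ.symm := by
      ext q
      rw [(key (π.symm q) q).1 rfl]
    have := congrArg Equiv.symm h2
    simpa using this
  have h1 : Set.range R ⊆ K (4 * n) := by
    rintro _ ⟨π, rfl⟩
    exact hR π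
  calc n.factorial = Nat.card (Equiv.Perm (Fin n)) := by
        rw [Nat.card_perm, Nat.card_fin]
    _ = (Set.range R).ncard := by
        rw [← Set.image_univ, Set.ncard_image_of_injective _ hinj, Set.ncard_univ]
    _ ≤ (K (4 * n)).ncard := Set.ncard_le_ncard h1 (Set.toFinite _)

end Pool.Agent.OGD
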