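import Pool.Agent.PMC.StE

/-!
OGD, toolkit: relations which are first-order definable in all structures of a language `LP ι`
(two binary symbols, unary symbols), uniformly; axiomatisable classes.  (Public copy of the toolkit in
PMC/FRM.lean.)  Use: `FO_v`, `FO_up` for variables (terms `t M v`), `FO_un`, `FO_ls`, `FO_eq` for
atomic relations, connectives, `FO_all`, `FO_ex` (give `B` explicitly if unification fails), `FO_fin`
for quantifiers over a finite index type, `FO_const`; then `FO_sen`, `FO_fam`, `FO_both`.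
-/

set_option autoImplicit false
set_option linter.unusedVariables false

namespace Pool.Agent.OGD

open FirstOrder.Language Set
open scoped FirstOrder
open Pool.Agent.PMC (Sy LP ls us)

/-- definable families of relations -/
def FO_Df (ι : Type) (n : ℕ)
    (P : (M : Type) → (LP ι).Structure M → (Fin n → M) → Prop) : Prop :=
  ∃ ψ : (LP ι).BoundedFormula Empty n, ∀ (M : Type) (S : (LP ι).Structure M) (v : Fin n → M),
    @BoundedFormula.Realize (LP ι) M S Empty n ψ default v ↔ P M S v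

/-- variables -/
def FO_T (n : ℕ) (t : (M : Type) → (Fin n → M) → M) : Prop :=
  ∃ i : Fin n, ∀ (M : Type) (v : Fin n → M), t M v = v i

theorem FO_v {n : ℕ} (i : Fin n) : FO_T n fun M v => v i := ⟨i, fun _ _ => rfl⟩

theorem FO_up {n : ℕ} {t : (M : Type) → (Fin n → M) → M} (h : FO_T n t) :
    FO_T (n + 1) fun M w => t M (fun i => w i.castSucc) := by
  obtain ⟨i, hi⟩ := h
  exact ⟨i.castSucc, fun M w => hi M _⟩

theorem FO_un {ι : Type} {n : ℕ} (i : ι) {t : (M : Type) → (Fin n → M) → M}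
    (h : FO_T n t) : FO_Df ι n fun M S v => us S i (t M v) := by
  obtain ⟨a, ha⟩ := h
  refine ⟨BoundedFormula.rel (L := LP ι) (Sy.un i : Sy ι 1) (fun _ => Term.var (Sum.inr a)),
    fun M S v => ?_⟩
  show @Structure.RelMap (LP ι) M S 1 (Sy.un i) (fun _ => v a) ↔ us S i (t M v)
  rw [ha]
  have h : (fun _ : Fin 1 => v a) = ![v a] := by
    funext k
    rw [Subsingleton.elim k 0]
    rfl
  rw [h]
  exact Iff.rfl

theorem FO_ls {ι : Type} {n : ℕ} (b : Bool) {t t' : (M : Type) → (Fin n → M) → M}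
    (h : FO_T n t) (h' : FO_T n t') :
    FO_Df ι n fun M S v => ls S b (t M v) (t' M v) := by
  obtain ⟨x, hx⟩ := h
  obtain ⟨y, hy⟩ := h'
  refine ⟨BoundedFormula.rel (L := LP ι) (Sy.lt b : Sy ι 2)
    (fun k => Term.var (Sum.inr (if k = 0 then x else y))), fun M S v => ?_⟩
  show @Structure.RelMap (LP ι) M S 2 (Sy.lt b) (fun k => v (if k = 0 then x else y)) ↔
    ls S b (t M v) (t' M v)
  rw [hx, hy]
  have h : (fun k : Fin 2 => v (if k = 0 then x else y)) = ![v x, v y] := by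
    funext k
    match k with
    | 0 => rfl
    | 1 => rfl
  rw [h]
  exact Iff.rfl

theorem FO_eq {ι : Type} {n : ℕ} {t t' : (M : Type) → (Fin n → M) → M}
    (h : FO_T n t) (h' : FO_T n t') : FO_Df ι n fun M S v => t M v = t' M v := by
  obtain ⟨x, hx⟩ := h
  obtain ⟨y, hy⟩ := h'
  refine ⟨BoundedFormula.equal (Term.var (Sum.inr x)) (Term.var (Sum.inr y)), fun M S v => ?_⟩
  show _ ↔ t M v = t' M v
  rw [hx, hy]
  exact Iff.rfl

theorem FO_imp {ι : Type} {n : ℕ}
    {P Q : (M : Type) → (LP ι).Structure M → (Fin n → M) → Prop}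
    (hP : FO_Df ι n P) (hQ : FO_Df ι n Q) : FO_Df ι n fun M S v => P M S v → Q M S v := by
  obtain ⟨φ, hφ⟩ := hP
  obtain ⟨ψ, hψ⟩ := hQ
  refine ⟨φ.imp ψ, fun M S v => ?_⟩
  rw [BoundedFormula.realize_imp, hφ, hψ]

theorem FO_not {ι : Type} {n : ℕ}
    {P : (M : Type) → (LP ι).Structure M → (Fin n → M) → Prop}
    (hP : FO_Df ι n P) : FO_Df ι n fun M S v => ¬ P M S v := by
  obtain ⟨φ, hφ⟩ := hP
  refine ⟨φ.not, fun M S v => ?_⟩
  rw [BoundedFormula.realize_not, hφ]

theorem FO_and {ι : Type} {n : ℕ}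
    {P Q : (M : Type) → (LP ι).Structure M → (Fin n → M) → Prop}
    (hP : FO_Df ι n P) (hQ : FO_Df ι n Q) : FO_Df ι n fun M S v => P M S v ∧ Q M S v := by
  obtain ⟨φ, hφ⟩ := hP
  obtain ⟨ψ, hψ⟩ := hQ
  refine ⟨φ ⊓ ψ, fun M S v => ?_⟩
  rw [BoundedFormula.realize_inf, hφ, hψ]

theorem FO_or {ι : Type} {n : ℕ}
    {P Q : (M : Type) → (LP ι).Structure M → (Fin n → M) → Prop}
    (hP : FO_Df ι n P) (hQ : FO_Df ι n Q) : FO_Df ι n fun M S v => P M S v ∨ Q M S v := by
  obtain ⟨φ, hφ⟩ := hP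
  obtain ⟨ψ, hψ⟩ := hQ
  refine ⟨φ ⊔ ψ, fun M S v => ?_⟩
  rw [BoundedFormula.realize_sup, hφ, hψ]

theorem FO_iff {ι : Type} {n : ℕ}
    {P Q : (M : Type) → (LP ι).Structure M → (Fin n → M) → Prop}
    (hP : FO_Df ι n P) (hQ : FO_Df ι n Q) : FO_Df ι n fun M S v => (P M S v ↔ Q M S v) := by
  obtain ⟨φ, hφ⟩ := hP
  obtain ⟨ψ, hψ⟩ := hQ
  refine ⟨φ.iff ψ, fun M S v => ?_⟩
  rw [BoundedFormula.realize_iff, hφ, hψ]

theorem FO_bool {ι : Type} {n : ℕ}
    {P : Bool → (M : Type) → (LP ι).Structure M → (Fin n → M) → Prop}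
    (hP : ∀ b, FO_Df ι n (P b)) : FO_Df ι n fun M S v => ∀ b, P b M S v := by
  obtain ⟨φ, hφ⟩ := hP true
  obtain ⟨ψ, hψ⟩ := hP false
  refine ⟨φ ⊓ ψ, fun M S v => ?_⟩
  rw [BoundedFormula.realize_inf, hφ, hψ]
  constructor
  · rintro ⟨h1, h2⟩ (_ | _)
    · exact h2
    · exact h1
  · exact fun h => ⟨h true, h false⟩

theorem FO_snoc {n : ℕ} {M : Type} (v : Fin n → M) (y : M) :
    (fun i : Fin n => (Fin.snoc v y : Fin (n + 1) → M) i.castSucc) = v := by
  funext i
  exact Fin.snoc_castSucc (α := fun _ => M) y v i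

theorem FO_all {ι : Type} {n : ℕ}
    {B : (M : Type) → (LP ι).Structure M → (Fin n → M) → M → Prop}
    (hP : FO_Df ι (n + 1) fun M S w => B M S (fun i => w i.castSucc) (w (Fin.last n))) :
    FO_Df ι n fun M S v => ∀ y, B M S v y := by
  obtain ⟨φ, hφ⟩ := hP
  refine ⟨φ.all, fun M S v => ?_⟩
  rw [BoundedFormula.realize_all]
  refine forall_congr' fun y => ?_
  have h1 : _ ↔ B M S (fun i => (Fin.snoc v y : Fin (n + 1) → M) i.castSucc)
      ((Fin.snoc v y : Fin (n + 1) → M) (Fin.last n)) := hφ M S (Fin.snoc v y)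
  rw [FO_snoc, Fin.snoc_last] at h1
  exact h1

theorem FO_ex {ι : Type} {n : ℕ}
    {B : (M : Type) → (LP ι).Structure M → (Fin n → M) → M → Prop}
    (hP : FO_Df ι (n + 1) fun M S w => B M S (fun i => w i.castSucc) (w (Fin.last n))) :
    FO_Df ι n fun M S v => ∃ y, B M S v y := by
  obtain ⟨φ, hφ⟩ := hP
  refine ⟨φ.ex, fun M S v => ?_⟩
  rw [BoundedFormula.realize_ex]
  refine exists_congr fun y => ?_
  have h1 : _ ↔ B M S (fun i => (Fin.snoc v y : Fin (n + 1) → M) i.castSucc)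
      ((Fin.snoc v y : Fin (n + 1) → M) (Fin.last n)) := hφ M S (Fin.snoc v y)
  rw [FO_snoc, Fin.snoc_last] at h1
  exact h1

/-- axiomatisable classes -/
def FO_Ax (ι : Type) (P : (M : Type) → (LP ι).Structure M → Prop) : Prop :=
  ∃ F : (LP ι).Theory, ∀ (M : Type) (S : (LP ι).Structure M),
    @FirstOrder.Language.Theory.Model (LP ι) M S F ↔ P M S

theorem FO_sen {ι : Type} {P : (M : Type) → (LP ι).Structure M → Prop}
    (h : FO_Df ι 0 fun M S _ => P M S) : FO_Ax ι P := by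
  obtain ⟨φ, hφ⟩ := h
  refine ⟨{φ}, fun M S => ?_⟩
  rw [@Theory.model_iff (LP ι) M S]
  constructor
  · intro h1
    exact (hφ M S default).1 (h1 φ rfl)
  · intro h1 ψ hψ
    rw [Set.mem_singleton_iff.1 hψ]
    exact (hφ M S default).2 h1

theorem FO_fam {ι J : Type} {P : J → (M : Type) → (LP ι).Structure M → Prop}
    (h : ∀ j, FO_Ax ι (P j)) : FO_Ax ι fun M S => ∀ j, P j M S := by
  choose F hF using h
  refine ⟨⋃ j, F j, fun M S => ?_⟩
  rw [@Theory.model_iff (LP ι) M S]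
  constructor
  · intro h1 j
    rw [← hF, @Theory.model_iff (LP ι) M S]
    exact fun φ hφ => h1 φ (Set.mem_iUnion.2 ⟨j, hφ⟩)
  · intro h1 φ hφ
    obtain ⟨j, hj⟩ := Set.mem_iUnion.1 hφ
    have h2 := h1 j
    rw [← hF, @Theory.model_iff (LP ι) M S] at h2
    exact h2 φ hj

theorem FO_both {ι : Type} {P Q : (M : Type) → (LP ι).Structure M → Prop}
    (hP : FO_Ax ι P) (hQ : FO_Ax ι Q) : FO_Ax ι fun M S => P M S ∧ Q M S := by
  obtain ⟨F, hF⟩ := hP
  obtain ⟨G, hG⟩ := hQ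
  refine ⟨F ∪ G, fun M S => ?_⟩
  show _ ↔ (P M S ∧ Q M S)
  rw [@Theory.model_iff (LP ι) M S, ← hF, ← hG, @Theory.model_iff (LP ι) M S,
    @Theory.model_iff (LP ι) M S]
  constructor
  · intro h
    exact ⟨fun φ hφ => h φ (Or.inl hφ), fun φ hφ => h φ (Or.inr hφ)⟩
  · rintro ⟨h1, h2⟩ φ (hφ | hφ)
    · exact h1 φ hφ
    · exact h2 φ hφ


theorem FO_congr {ι : Type} {n : ℕ} {P Q : (M : Type) → (LP ι).Structure M → (Fin n → M) → Prop}
    (hP : FO_Df ι n P) (h : ∀ M S v, P M S v ↔ Q M S v) : FO_Df ι n Q := by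
  obtain ⟨φ, hφ⟩ := hP
  exact ⟨φ, fun M S v => (hφ M S v).trans (h M S v)⟩

theorem FO_const {ι : Type} {n : ℕ} (p : Prop) : FO_Df ι n fun _ _ _ => p := by
  by_cases hp : p
  · refine ⟨⊤, fun M S v => ?_⟩
    rw [BoundedFormula.realize_top]
    exact ⟨fun _ => hp, fun _ => trivial⟩
  · refine ⟨⊥, fun M S v => ?_⟩
    rw [BoundedFormula.realize_bot]
    exact ⟨fun h => h.elim, fun h => hp h⟩

/-- quantifier over a finite index type -/
theorem FO_fin {ι J : Type} [Finite J] {n : ℕ}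
    {P : J → (M : Type) → (LP ι).Structure M → (Fin n → M) → Prop}
    (hP : ∀ j, FO_Df ι n (P j)) : FO_Df ι n fun M S v => ∀ j, P j M S v := by
  classical
  have : Fintype J := Fintype.ofFinite J
  have key : ∀ s : Finset J, FO_Df ι n fun M S v => ∀ j ∈ s, P j M S v := by
    intro s
    induction s using Finset.induction_on with
    | empty => exact FO_congr (FO_const True) fun M S v => by simp
    | insert a s _ ih => exact FO_congr (FO_and (hP a) ih) fun M S v => by simp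
  exact FO_congr (key Finset.univ) fun M S v => by simp

theorem FO_fex {ι J : Type} [Finite J] {n : ℕ}
    {P : J → (M : Type) → (LP ι).Structure M → (Fin n → M) → Prop}
    (hP : ∀ j, FO_Df ι n (P j)) : FO_Df ι n fun M S v => ∃ j, P j M S v :=
  FO_congr (FO_not (FO_fin fun j => FO_not (hP j))) fun M S v => by push Not; rfl

end Pool.Agent.OGD
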