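import Pool.Agent.OGD.St

/-!
OGD: OGA, classes of bounded grid rank.
-/

set_option autoImplicit false

namespace Pool.Agent.OGD

open FirstOrder.Language Set
open scoped FirstOrder
open Pool.Agent.PMC (Sy LP ls us Two Bin)

theorem OGA_enum {M : Type} (r : M → M → Prop) (h : Lin r) (Z : Finset M) :
    ∃ (m : ℕ) (z : Fin m → M), (∀ i j, i < j → r (z i) (z j)) ∧ ∀ x ∈ Z, ∃ i, z i = x := by
  classical
  obtain ⟨h1, h2, h3⟩ := h
  have : IsStrictTotalOrder M r :=
    { irrefl := h1
      trans := h2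
      trichotomous := fun a b hab hba => by
        by_contra hne
        rcases h3 a b hne with h | h
        · exact hab h
        · exact hba h }
  let _ : LinearOrder M := linearOrderOfSTO r
  refine ⟨Z.card, fun i => Z.orderEmbOfFin rfl i, fun i j hij => ?_, fun x hx => ?_⟩
  · have h4 : Z.orderEmbOfFin rfl i < Z.orderEmbOfFin rfl j :=
      (Z.orderEmbOfFin rfl).strictMono hij
    exact h4
  · have h5 : x ∈ Set.range (Z.orderEmbOfFin rfl) := by
      rw [Finset.range_orderEmbOfFin]
      exact hx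
    exact h5

theorem thm_OGA : St_OGA := by
  classical
  rintro hT4 K ⟨k, hk⟩ ι hι T hT
  refine hT4 ι hι T k fun S hS => ?_
  obtain ⟨hlin, hage⟩ := hT S hS
  refine ⟨hlin, ?_⟩
  rintro ⟨I, J, hI, hJ, hR⟩
  choose y hyJ hy using hR
  choose x hxI hx using hy
  have hfin : (Set.range (fun p : Fin k × Fin k × Fin k => y p.1 p.2.1 p.2.2) ∪
      Set.range (fun p : {p : Fin k × Fin k × Fin k × Fin k // p.2.2.1 ≠ p.2.2.2} =>
        x p.1.1 p.1.2.1 p.1.2.2.1 p.1.2.2.2 p.2)).Finite :=
    (Set.finite_range _).union (Set.finite_range _)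
  obtain ⟨m, z, hz, hsur⟩ := OGA_enum (ls S true) hlin hfin.toFinset
  have hlt : ∀ i j, ls S true (z i) (z j) → i < j := by
    intro i j hij
    rcases lt_trichotomy i j with h | h | h
    · exact h
    · rw [h] at hij
      exact absurd hij (hlin.1 _)
    · exact absurd (hlin.2.1 _ _ _ hij (hz j i h)) (hlin.1 _)
  have hys : ∀ a b i, ∃ t, z t = y a b i := fun a b i =>
    hsur _ (by rw [Set.Finite.mem_toFinset]; exact Or.inl ⟨(a, b, i), rfl⟩)
  have hxs : ∀ a b i j (h : i ≠ j), ∃ t, z t = x a b i j h := fun a b i j h =>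
    hsur _ (by rw [Set.Finite.mem_toFinset]; exact Or.inr ⟨⟨(a, b, i, j), h⟩, rfl⟩)
  choose y' hy' using hys
  choose x' hx' using hxs
  refine hk m _ (hage m z hz) ⟨fun a => {t | z t ∈ I a}, fun b => {t | z t ∈ J b}, ?_, ?_, ?_⟩
  · intro a b hab s hs t ht
    exact hlt _ _ (hI a b hab _ hs _ ht)
  · intro a b hab s hs t ht
    exact hlt _ _ (hJ a b hab _ hs _ ht)
  · intro a b
    refine ⟨y' a b, fun i => ?_, fun i j hij => ⟨x' a b i j hij, ?_, ?_⟩⟩
    · show z (y' a b i) ∈ J b
      rw [hy']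
      exact hyJ a b i
    · show z (x' a b i j hij) ∈ I a
      rw [hx']
      exact hxI a b i j hij
    · show ¬ (ls S false (z (x' a b i j hij)) (z (y' a b i)) ↔
        ls S false (z (x' a b i j hij)) (z (y' a b j)))
      rw [hx', hy', hy']
      exact hx a b i j hij

end Pool.Agent.OGD
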