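import Pool.Agent.OGD.St
import Pool.Agent.MST.RamF

/-!
OGD, module RAM: product Ramsey theorem for pairs (helper47).
-/

set_option autoImplicit false

namespace Pool.Agent.OGD

private theorem RAM_col {C : Type} [Finite C] (u : ℕ → C) :
    ∃ a : C, ∀ᶠ k in (Filter.hyperfilter ℕ : Filter ℕ), u k = a := by
  obtain ⟨a, ha⟩ := Ultrafilter.eq_pure_of_finite (Ultrafilter.map u (Filter.hyperfilter ℕ))
  refine ⟨a, ?_⟩
  have h1 : ({a} : Set C) ∈ Ultrafilter.map u (Filter.hyperfilter ℕ) := by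
    rw [ha]
    exact Ultrafilter.mem_pure.2 rfl
  exact h1

/-- finite Ramsey theorem for pairs -/
theorem RAM_fin (C : Type) [Finite C] (n : ℕ) : ∃ k, ∀ c : Fin k → Fin k → C,
    ∃ (f : Fin n → Fin k) (F : C), StrictMono f ∧ ∀ i j, i < j → c (f i) (f j) = F := by
  classical
  by_contra hcon
  push Not at hcon
  choose c hc using hcon
  -- the colours are extended
  rcases isEmpty_or_nonempty C with hC | ⟨⟨a0⟩⟩
  · exact isEmptyElim (c 1 0 0)
  let d : ℕ → ℕ → ℕ → C := fun k i j => if h : i < k ∧ j < k then c k ⟨i, h.1⟩ ⟨j, h.2⟩ else a0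
  choose e he using fun i j => RAM_col (fun k => d k i j)
  obtain ⟨f, hf, F, hF⟩ := Pool.Agent.MST.ramF e
  have h1 : ∀ᶠ k in (Filter.hyperfilter ℕ : Filter ℕ), ∀ p : Fin n × Fin n,
      d k (f p.1) (f p.2) = e (f p.1) (f p.2) := by
    rw [Filter.eventually_all]
    exact fun p => he _ _
  have h2 : ∀ᶠ k in (Filter.hyperfilter ℕ : Filter ℕ), f n < k := by
    have h3 : ∀ᶠ k in (Filter.atTop : Filter ℕ), f n < k := Filter.eventually_gt_atTop _
    exact Nat.hyperfilter_le_atTop h3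
  obtain ⟨k, hk1, hk2⟩ := (h1.and h2).exists
  have hlt : ∀ i : Fin n, f i < k := fun i => lt_trans (hf i.2) hk2
  obtain ⟨i, j, hij, hne⟩ := hc k (fun i => ⟨f i, hlt i⟩) F (fun i j hij => hf hij)
  apply hne
  have h4 := hk1 (i, j)
  have h5 : d k (f i) (f j) = c k ⟨f i, hlt i⟩ ⟨f j, hlt j⟩ := by
    show (if h : f i < k ∧ f j < k then c k ⟨f i, h.1⟩ ⟨f j, h.2⟩ else a0) = _
    rw [dif_pos ⟨hlt i, hlt j⟩]
  rw [← h5, h4]
  exact hF _ _ hij

theorem thm_RAM : St_RAM := by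
  intro C hC n
  obtain ⟨m, hm⟩ := RAM_fin C n
  obtain ⟨k', hk'⟩ := RAM_fin (Fin m → Fin m → C) n
  refine ⟨m + k', fun c => ?_⟩
  obtain ⟨g, G, hg, hG⟩ := hk' (fun b b' a a' =>
    c (Fin.castLE (Nat.le_add_right m k') a) (Fin.castLE (Nat.le_add_right m k') a')
      (Fin.castLE (Nat.le_add_left k' m) b) (Fin.castLE (Nat.le_add_left k' m) b'))
  obtain ⟨f, F, hf, hF⟩ := hm G
  refine ⟨fun i => Fin.castLE (Nat.le_add_right m k') (f i),
    fun i => Fin.castLE (Nat.le_add_left k' m) (g i), F, ?_, ?_, ?_⟩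
  · intro i j hij
    exact hf hij
  · intro i j hij
    exact hg hij
  · intro a a' b b' haa hbb
    have h1 := congrFun (congrFun (hG b b' hbb) (f a)) (f a')
    rw [hF a a' haa] at h1
    exact h1

end Pool.Agent.OGD
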