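import Pool.Agent.OGD.St

/-!
OGD: [REC] a code is the code of its decoded structure (helper25).
-/

set_option autoImplicit false
set_option linter.unusedVariables false

namespace Pool.Agent.OGD

open FirstOrder.Language Set
open scoped FirstOrder
open Pool.Agent.PMC (Sy LP ls us Two Bin)
open Pool.Agent.Helper6.Str (PerfK CtblK Iso Code toStr RelIso)

section

variable {ι M : Type} (τ : Typ) (S : (LP (ι ⊕ Fin 4)).Structure M)

private theorem REC_sub (x y : {z : M // lv S 0 z}) : x = y ↔ x.1 = y.1 := Subtype.ext_iff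

private theorem REC_ls (b : Bool) (x y : {z : M // lv S 0 z}) :
    ls (dec S) b x y ↔ dl S b x.1 y.1 := Iff.rfl

private theorem REC_us (i : ι) (x : {z : M // lv S 0 z}) :
    us (dec S) i x ↔ us S (.inl i) x.1 := Iff.rfl

private theorem REC_nlt (x y : {z : M // lv S 0 z} × Fin 4) :
    nlt (ls (dec S)) τ x y ↔ nlt (dl S) τ (x.1.1, x.2) (y.1.1, y.2) := by
  unfold nlt
  rw [REC_sub S x.1 y.1]
  exact Iff.rfl

private theorem REC_nr (x y : {z : M // lv S 0 z} × Fin 4) :
    nr (ls (dec S)) τ x y ↔ nr (dl S) τ (x.1.1, x.2) (y.1.1, y.2) := by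
  unfold nr
  rw [REC_sub S x.1 y.1, Ne, REC_sub S x.1 y.1]
  exact Iff.rfl

private theorem REC_two (h : Frame S τ) : Two (dec S) := by
  obtain ⟨hirr, htra, htot⟩ := h.lin
  intro b
  cases b with
  | true =>
    refine ⟨fun x hx => hirr x.1 hx, fun x y z hx hy => htra x.1 y.1 z.1 hx hy, fun x y hxy => ?_⟩
    exact htot x.1 y.1 (fun h' => hxy (Subtype.ext h'))
  | false =>
    refine ⟨?_, ?_, ?_⟩
    · rintro x ⟨v, v', hv, hv', hl⟩
      have e : v = v' := h.one 2 x.1 v v' hv hv'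
      rw [e] at hl
      exact hirr v' hl
    · rintro x y z ⟨v, v', hv, hv', hl⟩ ⟨w, w', hw, hw', hl'⟩
      have e : v' = w := h.one 2 y.1 v' w hv' hw
      rw [e] at hl
      exact ⟨v, w', hv, hw', htra v w w' hl hl'⟩
    · intro x y hxy
      obtain ⟨v, hv⟩ := h.ex x.1 2 x.2
      obtain ⟨w, hw⟩ := h.ex y.1 2 y.2
      have hne : v ≠ w := by
        intro e
        rw [e] at hv
        exact hxy (Subtype.ext (h.inj 2 x.1 y.1 w hv hw))
      rcases htot v w hne with h1 | h1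
      · exact Or.inl ⟨v, w, hv, hw, h1⟩
      · exact Or.inr ⟨w, v, hw, hv, h1⟩

private theorem REC_iso (h : Frame S τ) : Iso (enc τ (dec S)) S := by
  have hex : ∀ p : {z : M // lv S 0 z} × Fin 4, ∃ w, pt S p.2 p.1.1 w :=
    fun p => h.ex p.1.1 p.2 p.1.2
  choose f hf using hex
  have hbij : Function.Bijective f := by
    constructor
    · rintro ⟨x, l⟩ ⟨y, l'⟩ he
      have h1 := hf (x, l)
      have h2 := hf (y, l')
      rw [← he] at h2
      have e : l = l' := h.unq _ _ _ (h.lvl _ _ _ h1).2 (h.lvl _ _ _ h2).2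
      subst e
      have e2 : x = y := Subtype.ext (h.inj l x.1 y.1 _ h1 h2)
      rw [e2]
    · intro w
      obtain ⟨l, hl⟩ := h.lev w
      obtain ⟨z, hz⟩ := h.sur l w hl
      exact ⟨(⟨z, (h.lvl _ _ _ hz).1⟩, l), h.one l z _ _ (hf (⟨z, (h.lvl _ _ _ hz).1⟩, l)) hz⟩
  refine ⟨Equiv.ofBijective f hbij, ?_⟩
  have hun : ∀ (i : ι ⊕ Fin 4) (v : Fin 1 → {z : M // lv S 0 z} × Fin 4),
      S.RelMap (n := 1) (Sy.un i : Sy (ι ⊕ Fin 4) 1) (Equiv.ofBijective f hbij ∘ v) ↔
        us S i (f (v 0)) := by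
    intro i v
    have e : (Equiv.ofBijective f hbij ∘ v) = ![f (v 0)] := by
      funext k
      rw [Subsingleton.elim k 0]
      rfl
    rw [e]
    exact Iff.rfl
  have hlt : ∀ (b : Bool) (v : Fin 2 → {z : M // lv S 0 z} × Fin 4),
      S.RelMap (n := 2) (Sy.lt b : Sy (ι ⊕ Fin 4) 2) (Equiv.ofBijective f hbij ∘ v) ↔
        ls S b (f (v 0)) (f (v 1)) := by
    intro b v
    have e : (Equiv.ofBijective f hbij ∘ v) = ![f (v 0), f (v 1)] := by
      funext k
      match k with
      | 0 => rfl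
      | 1 => rfl
    rw [e]
    exact Iff.rfl
  intro n R v
  match n, R with
  | _, .un (.inl i) =>
    refine Iff.trans ?_ (hun (.inl i) v).symm
    show ((v 0).2 = 0 ∧ us S (.inl i) (v 0).1.1) ↔ _
    have h1 := hf (v 0)
    constructor
    · rintro ⟨h2, h3⟩
      rw [h2] at h1
      have e : f (v 0) = (v 0).1.1 := h1.2
      rw [e]
      exact h3
    · intro h2
      have h3 := h.un i _ h2
      have h4 : (v 0).2 = 0 := h.unq _ _ _ (h.lvl _ _ _ h1).2 h3
      rw [h4] at h1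
      have e : f (v 0) = (v 0).1.1 := h1.2
      rw [e] at h2
      exact ⟨h4, h2⟩
  | _, .un (.inr l) =>
    refine Iff.trans ?_ (hun (.inr l) v).symm
    show (v 0).2 = l ↔ lv S l (f (v 0))
    have h1 := (h.lvl _ _ _ (hf (v 0))).2
    constructor
    · intro h2
      rw [← h2]
      exact h1
    · intro h2
      exact h.unq _ _ _ h1 h2
  | _, .lt true =>
    refine Iff.trans ?_ (hlt true v).symm
    refine Iff.trans (REC_nlt τ S (v 0) (v 1)) ?_
    exact (h.ord _ _ _ _ _ _ (hf (v 0)) (hf (v 1))).symm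
  | _, .lt false =>
    refine Iff.trans ?_ (hlt false v).symm
    refine Iff.trans (REC_nr τ S (v 0) (v 1)) ?_
    exact (h.rel _ _ _ _ _ _ (hf (v 0)) (hf (v 1))).symm

end

theorem thm_REC : St_REC := fun ι M τ S h => ⟨REC_two τ S h, REC_iso τ S h⟩

end Pool.Agent.OGD
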