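import Pool.Agent.OGD.St

/-!
OGD, module SEP: one side occurs for all sizes (helper9)
-/

set_option autoImplicit false
set_option linter.unusedVariables false

namespace Pool.Agent.OGD

open Set

/-- a part of a grid -/
private theorem SEP_sub {s : Bool} {n : ℕ} {r : Fin n → Fin n → Prop} {N k : ℕ} (hk : k ≤ N)
    {I J : Fin N → Set (Fin n)} (hI : Inc I) (hJ : Inc J) (hR : Ric r I J)
    (f g : Fin k → Fin N) (hf : StrictMono f) (hg : StrictMono g)
    (h : ∀ a b, ∀ x ∈ I (f a), ∀ y ∈ J (g b), (s = true → x < y) ∧ (s = false → y < x)) :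
    SGrid s r k := by
  refine ⟨fun a => I (f a), fun b => J (g b), fun a b hab => hI _ _ (hf hab),
    fun a b hab => hJ _ _ (hg hab), fun a b => ?_, h⟩
  obtain ⟨y, hy, hy2⟩ := hR (f a) (g b)
  exact ⟨fun i => y (Fin.castLE hk i), fun i => hy _, fun i j hij =>
    hy2 _ _ (fun h => hij (Fin.castLE_injective hk h))⟩

private theorem SEP_anti {s : Bool} {n : ℕ} {r : Fin n → Fin n → Prop} {k k' : ℕ} (hk : k ≤ k')
    (h : SGrid s r k') : SGrid s r k := by
  obtain ⟨I, J, hI, hJ, hR, hs⟩ := h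
  exact SEP_sub hk hI hJ hR (Fin.castLE hk) (Fin.castLE hk) (Fin.strictMono_castLE hk)
    (Fin.strictMono_castLE hk) (fun a b => hs _ _)

private theorem SEP_side {n : ℕ} {r : Fin n → Fin n → Prop} {k : ℕ} (h : Grid r (2 * k + 2)) :
    ∃ s, SGrid s r k := by
  obtain ⟨I, J, hI, hJ, hR⟩ := h
  let m : Fin (2 * k + 2) := ⟨k, by omega⟩
  obtain ⟨y, hy, hy2⟩ := hR m m
  obtain ⟨u, hu, -⟩ := hy2 ⟨0, by omega⟩ ⟨1, by omega⟩ (by
    intro h
    have := congrArg Fin.val h
    simp at this)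
  have hv := hy ⟨0, by omega⟩
  have hlo : StrictMono (fun a : Fin k => (⟨a.1, by omega⟩ : Fin (2 * k + 2))) := fun a b hab => hab
  have hhi : StrictMono (fun a : Fin k => (⟨a.1 + k + 1, by omega⟩ : Fin (2 * k + 2))) := by
    intro a b hab
    have : a.1 < b.1 := hab
    show a.1 + k + 1 < b.1 + k + 1
    omega
  rcases le_or_gt u (y ⟨0, by omega⟩) with h1 | h1
  · refine ⟨true, SEP_sub (by omega) hI hJ hR _ _ hlo hhi (fun a b x hx z hz => ⟨fun _ => ?_,
      fun h => absurd h (by decide)⟩)⟩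
    have h2 : x < u := hI _ _ (show a.1 < k from a.2) x hx u hu
    have h3 : y ⟨0, by omega⟩ < z := hJ _ _ (show k < b.1 + k + 1 by omega) _ hv z hz
    exact lt_of_lt_of_le h2 (h1.trans h3.le)
  · refine ⟨false, SEP_sub (by omega) hI hJ hR _ _ hhi hlo (fun a b x hx z hz =>
      ⟨fun h => absurd h (by decide), fun _ => ?_⟩)⟩
    have h2 : u < x := hI _ _ (show k < a.1 + k + 1 by omega) u hu x hx
    have h3 : z < y ⟨0, by omega⟩ := hJ _ _ (show b.1 < k from b.2) z hz _ hv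
    exact h3.trans (h1.trans h2)

/-- [SEP] -/
theorem thm_SEP : St_SEP := by
  intro K hK
  have hK' : ∀ k, ∃ n, ∃ r ∈ K n, Grid r k := by
    intro k
    by_contra hcon
    push Not at hcon
    exact hK ⟨k, hcon⟩
  by_contra hcon
  push Not at hcon
  obtain ⟨k₁, h₁⟩ := hcon true
  obtain ⟨k₂, h₂⟩ := hcon false
  obtain ⟨n, r, hr, hg⟩ := hK' (2 * max k₁ k₂ + 2)
  obtain ⟨s, hs⟩ := SEP_side hg
  cases s
  · exact h₂ n r hr (SEP_anti (le_max_right _ _) hs)
  · exact h₁ n r hr (SEP_anti (le_max_left _ _) hs)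

end Pool.Agent.OGD
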