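import Pool.Agent.OGD.St

/-!
OGD: translation of sentences (helper73, after PMC/TRN.lean).
-/

set_option autoImplicit false
set_option linter.unusedVariables false

namespace Pool.Agent.OGD

open FirstOrder.Language Set
open scoped FirstOrder
open Pool.Agent.PMC (Sy LP ls us)

theorem TRN_nxt {ι : Type} {n : ℕ} (l l' : Fin 4) {t t' : (M : Type) → (Fin n → M) → M}
    (h : FO_T n t) (h' : FO_T n t') :
    FO_Df (ι ⊕ Fin 4) n fun M S v => nxt S l l' (t M v) (t' M v) := by
  refine FO_and (FO_un _ h) (FO_and (FO_un _ h') (FO_and (FO_ls _ h h')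
    (FO_all (B := fun M S v y => lv S l y ∨ lv S l' y → ls S true (t M v) y →
      ¬ ls S true y (t' M v)) ?_)))
  exact FO_imp (FO_or (FO_un _ (FO_v _)) (FO_un _ (FO_v _)))
    (FO_imp (FO_ls _ (FO_up h) (FO_v _)) (FO_not (FO_ls _ (FO_v _) (FO_up h'))))

theorem TRN_xor {ι : Type} {n : ℕ}
    {P Q : (M : Type) → (LP ι).Structure M → (Fin n → M) → Prop}
    (hP : FO_Df ι n P) (hQ : FO_Df ι n Q) : FO_Df ι n fun M S v => Xor (P M S v) (Q M S v) :=
  FO_congr (FO_or (FO_and hP (FO_not hQ)) (FO_and hQ (FO_not hP))) fun M S v => Iff.rfl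

theorem TRN_mt {ι : Type} {n : ℕ} {t t' : (M : Type) → (Fin n → M) → M}
    (h : FO_T n t) (h' : FO_T n t') :
    FO_Df (ι ⊕ Fin 4) n fun M S v => mt S (t M v) (t' M v) := by
  refine FO_and (FO_un _ h) (FO_and (FO_un _ h')
    (FO_ex (B := fun M S v z' => ∃ w', nxt S 0 1 (t M v) z' ∧ nxt S 2 3 (t' M v) w' ∧
      Phi (ls S false) ![t M v, z', t M v, t M v] ![t' M v, t' M v, t' M v, w'])
      (FO_ex (B := fun M S v w' => nxt S 0 1 (t M fun i => v i.castSucc) (v (Fin.last n)) ∧
        nxt S 2 3 (t' M fun i => v i.castSucc) w' ∧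
        Phi (ls S false) ![t M fun i => v i.castSucc, v (Fin.last n), t M fun i => v i.castSucc,
          t M fun i => v i.castSucc] ![t' M fun i => v i.castSucc, t' M fun i => v i.castSucc,
            t' M fun i => v i.castSucc, w']) ?_)))
  refine FO_and (TRN_nxt _ _ (FO_up (FO_up h)) (FO_up (FO_v _)))
    (FO_and (TRN_nxt _ _ (FO_up (FO_up h')) (FO_v _)) ?_)
  exact TRN_xor
    (TRN_xor (FO_ls _ (FO_up (FO_up h)) (FO_up (FO_up h')))
      (FO_ls _ (FO_up (FO_v (Fin.last n))) (FO_up (FO_up h'))))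
    (TRN_xor (FO_ls _ (FO_up (FO_up h)) (FO_v _))
      (FO_ls _ (FO_up (FO_v (Fin.last n))) (FO_v _)))

theorem TRN_dl {ι : Type} {n : ℕ} (b : Bool) {t t' : (M : Type) → (Fin n → M) → M}
    (h : FO_T n t) (h' : FO_T n t') :
    FO_Df (ι ⊕ Fin 4) n fun M S v => dl S b (t M v) (t' M v) := by
  cases b
  · refine FO_ex (B := fun M S v x => ∃ y, mt S (t M v) x ∧ mt S (t' M v) y ∧ ls S true x y)
      (FO_ex (B := fun M S v y => mt S (t M fun i => v i.castSucc) (v (Fin.last n)) ∧
        mt S (t' M fun i => v i.castSucc) y ∧ ls S true (v (Fin.last n)) y) ?_)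
    exact FO_and (TRN_mt (FO_up (FO_up h)) (FO_up (FO_v _)))
      (FO_and (TRN_mt (FO_up (FO_up h')) (FO_v _)) (FO_ls _ (FO_up (FO_v _)) (FO_v _)))
  · exact FO_ls true h h'

private theorem TRN_main {ι : Type} {n : ℕ} (φ : (LP ι).BoundedFormula Empty n) :
    ∃ ψ : (LP (ι ⊕ Fin 4)).BoundedFormula Empty n,
      ∀ (M : Type) (S : (LP (ι ⊕ Fin 4)).Structure M) (x : Fin n → {z : M // lv S 0 z}),
        @BoundedFormula.Realize (LP (ι ⊕ Fin 4)) M S Empty n ψ default (fun i => (x i).1) ↔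
          @BoundedFormula.Realize (LP ι) {z : M // lv S 0 z} (dec S) Empty n φ default x := by
  have hterm : ∀ {m : ℕ} (t : (LP ι).Term (Empty ⊕ Fin m)),
      ∃ i : Fin m, t = Term.var (Sum.inr i) := by
    intro m t
    match t with
    | .var (.inl e) => exact e.elim
    | .var (.inr i) => exact ⟨i, rfl⟩
    | .func f _ => exact Empty.elim f
  have key : ∀ {m : ℕ} (N : Type) (T : (LP ι).Structure N) (v : Fin m → N)
      (t : (LP ι).Term (Empty ⊕ Fin m)) (i : Fin m), t = Term.var (Sum.inr i) →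
        @Term.realize (LP ι) N T _ (Sum.elim (default : Empty → N) v) t = v i := by
    intro m N T v t i h
    subst h
    rfl
  induction φ with
  | falsum => exact ⟨⊥, fun M S x => Iff.rfl⟩
  | @equal m t₁ t₂ =>
      obtain ⟨i, rfl⟩ := hterm t₁
      obtain ⟨j, rfl⟩ := hterm t₂
      refine ⟨BoundedFormula.equal (Term.var (Sum.inr i)) (Term.var (Sum.inr j)), fun M S x => ?_⟩
      show (x i).1 = (x j).1 ↔ x i = x j
      exact ⟨fun h => Subtype.ext h, fun h => congrArg Subtype.val h⟩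
  | @rel m l R ts =>
      match l, R, ts with
      | _, .un u, ts =>
          obtain ⟨i, hi⟩ := hterm (ts 0)
          obtain ⟨ψ, hψ⟩ := FO_un (ι := ι ⊕ Fin 4) (.inl u) (FO_v i)
          refine ⟨ψ, fun M S x => ?_⟩
          rw [hψ]
          have h1 := key {z : M // lv S 0 z} (dec S) x _ _ hi
          show us S (.inl u) (x i).1 ↔ us S (.inl u) (@Term.realize (LP ι) _ (dec S) _
            (Sum.elim (default : Empty → {z : M // lv S 0 z}) x) (ts 0)).1
          rw [h1]
      | _, .lt b, ts =>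
          obtain ⟨i, hi⟩ := hterm (ts 0)
          obtain ⟨j, hj⟩ := hterm (ts 1)
          obtain ⟨ψ, hψ⟩ := TRN_dl (ι := ι) b (FO_v i) (FO_v j)
          refine ⟨ψ, fun M S x => ?_⟩
          rw [hψ]
          have h1 := key {z : M // lv S 0 z} (dec S) x _ _ hi
          have h2 := key {z : M // lv S 0 z} (dec S) x _ _ hj
          show dl S b (x i).1 (x j).1 ↔ dl S b (@Term.realize (LP ι) _ (dec S) _
            (Sum.elim (default : Empty → {z : M // lv S 0 z}) x) (ts 0)).1
            (@Term.realize (LP ι) _ (dec S) _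
            (Sum.elim (default : Empty → {z : M // lv S 0 z}) x) (ts 1)).1
          rw [h1, h2]
  | @imp m φ₁ φ₂ ih₁ ih₂ =>
      obtain ⟨ψ₁, h₁⟩ := ih₁
      obtain ⟨ψ₂, h₂⟩ := ih₂
      refine ⟨ψ₁.imp ψ₂, fun M S x => ?_⟩
      rw [BoundedFormula.realize_imp]
      exact (imp_congr (h₁ M S x) (h₂ M S x))
  | @all m φ ih =>
      obtain ⟨ψ, hψ⟩ := ih
      obtain ⟨δ, hδ⟩ := FO_un (ι := ι ⊕ Fin 4) (.inr 0) (FO_v (Fin.last m))
      refine ⟨(δ.imp ψ).all, fun M S x => ?_⟩
      have hsn : ∀ y : {z : M // lv S 0 z},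
          (Fin.snoc (fun i => (x i).1) y.1 : Fin (m + 1) → M) =
          fun i => ((Fin.snoc x y : Fin (m + 1) → {z : M // lv S 0 z}) i).1 := by
        intro y
        funext i
        refine Fin.lastCases ?_ (fun j => ?_) i
        · rw [Fin.snoc_last, Fin.snoc_last]
        · rw [Fin.snoc_castSucc, Fin.snoc_castSucc]
      constructor
      · intro h y
        have h1 := h y.1
        rw [BoundedFormula.realize_imp, hδ, hsn y] at h1
        have h0 : us S (.inr 0)
            ((Fin.snoc x y : Fin (m + 1) → {z : M // lv S 0 z}) (Fin.last m)).1 := by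
          rw [Fin.snoc_last]
          exact y.2
        exact (hψ M S (Fin.snoc x y)).1 (h1 h0)
      · intro h y
        rw [BoundedFormula.realize_imp, hδ]
        intro hy'
        have hy : lv S 0 y := by
          have h3 : us S (.inr 0) ((Fin.snoc (fun i => (x i).1) y : Fin (m + 1) → M) (Fin.last m)) :=
            hy'
          rw [Fin.snoc_last] at h3
          exact h3
        have h1 := h ⟨y, hy⟩
        have h2 := (hψ M S (Fin.snoc x ⟨y, hy⟩)).2 h1
        rw [← hsn ⟨y, hy⟩] at h2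
        exact h2

theorem thm_TRN : St_TRN := by
  intro ι σ
  obtain ⟨τ, hτ⟩ := TRN_main σ
  refine ⟨τ, fun M S => ?_⟩
  have h := hτ M S (fun i => i.elim0)
  have e1 : (fun i : Fin 0 => ((fun i : Fin 0 => (i.elim0 : {z : M // lv S 0 z})) i).1) =
      (default : Fin 0 → M) := Subsingleton.elim _ _
  have e2 : (fun i : Fin 0 => (i.elim0 : {z : M // lv S 0 z})) =
      (default : Fin 0 → {z : M // lv S 0 z}) := Subsingleton.elim _ _
  rw [e1, e2] at h
  exact h

end Pool.Agent.OGD
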