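import Pool.Agent.OGD.St

/-!
# OGD module UNA: uniform boards
-/

set_option autoImplicit false

namespace Pool.Agent.OGD

open Classical in
/-- the colour of two rows and two columns -/
noncomputable def UNA_col {n N : ℕ} (r : Fin n → Fin n → Prop)
    (e : Fin N → Fin N → Fin 4 → Fin n) (a a' b b' : Fin N)
    (u v : Bool × Bool × Fin 4) : Bool :=
  decide (r (e (if u.1 = true then a else a') (if u.2.1 = true then b else b') u.2.2)
    (e (if v.1 = true then a else a') (if v.2.1 = true then b else b') v.2.2))

theorem UNA_col_iff {n N : ℕ} (r : Fin n → Fin n → Prop)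
    (e : Fin N → Fin N → Fin 4 → Fin n) (a a' b b' : Fin N)
    (u v : Bool × Bool × Fin 4) : UNA_col r e a a' b b' u v = true ↔
    r (e (if u.1 = true then a else a') (if u.2.1 = true then b else b') u.2.2)
    (e (if v.1 = true then a else a') (if v.2.1 = true then b else b') v.2.2) := by
  classical
  exact decide_eq_true_iff

theorem thm_UNA (h : St_RAM) : St_UNA := by
  intro s k
  obtain ⟨N, hN⟩ := h ((Bool × Bool × Fin 4) → (Bool × Bool × Fin 4) → Bool) inferInstance (k + 1)
  refine ⟨N, fun n r e he => ?_⟩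
  obtain ⟨f, g, F, hf, hg, hF⟩ := hN (UNA_col r e)
  have hfk : ∀ a a' : Fin k, a < a' → f a.castSucc < f a'.castSucc := fun a a' haa =>
    hf (Fin.castSucc_lt_castSucc_iff.mpr haa)
  have hgk : ∀ a a' : Fin k, a < a' → g a.castSucc < g a'.castSucc := fun a a' haa =>
    hg (Fin.castSucc_lt_castSucc_iff.mpr haa)
  refine ⟨⟨s, fun i j => F (true, true, i) (true, true, j),
    fun α β i j => F (α, β, i) (!α, !β, j)⟩,
    fun a b => e (f a.castSucc) (g b.castSucc), rfl, ?_, ?_, ?_⟩
  · refine ⟨?_, ?_, ?_, ?_, ?_⟩
    · intro a a' b b' i j hi hj haa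
      exact he.row _ _ _ _ i j hi hj (hfk a a' haa)
    · intro a a' b b' i j hi hj hbb
      exact he.col _ _ _ _ i j hi hj (hgk b b' hbb)
    · intro a b
      exact he.inn _ _
    · intro a a' b b' i j hi hj
      exact he.sep _ _ _ _ i j hi hj
    · intro a a' b b'
      rw [he.phi]
      constructor
      · rintro ⟨h1, h2⟩
        exact ⟨Fin.castSucc_injective k (hf.injective h1), Fin.castSucc_injective k (hg.injective h2)⟩
      · rintro ⟨rfl, rfl⟩
        exact ⟨rfl, rfl⟩
  · intro a b i j
    have h1 := hF a.castSucc a.succ b.castSucc b.succ Fin.castSucc_lt_succ Fin.castSucc_lt_succ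
    have h2 := UNA_col_iff r e (f a.castSucc) (f a.succ) (g b.castSucc) (g b.succ)
      (true, true, i) (true, true, j)
    rw [h1] at h2
    exact h2.symm
  · intro a a' b b' i j ha hb
    rcases lt_or_gt_of_ne ha with ha | ha <;> rcases lt_or_gt_of_ne hb with hb | hb
    · have h1 := hF _ _ _ _ (Fin.castSucc_lt_castSucc_iff.mpr ha)
        (Fin.castSucc_lt_castSucc_iff.mpr hb)
      have h2 := UNA_col_iff r e (f a.castSucc) (f a'.castSucc) (g b.castSucc) (g b'.castSucc)
        (true, true, i) (false, false, j)
      rw [h1] at h2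
      rw [decide_eq_true ha, decide_eq_true hb]
      exact h2.symm
    · have h1 := hF _ _ _ _ (Fin.castSucc_lt_castSucc_iff.mpr ha)
        (Fin.castSucc_lt_castSucc_iff.mpr hb)
      have h2 := UNA_col_iff r e (f a.castSucc) (f a'.castSucc) (g b'.castSucc) (g b.castSucc)
        (true, false, i) (false, true, j)
      rw [h1] at h2
      rw [decide_eq_true ha, decide_eq_false (not_lt.mpr hb.le)]
      exact h2.symm
    · have h1 := hF _ _ _ _ (Fin.castSucc_lt_castSucc_iff.mpr ha)
        (Fin.castSucc_lt_castSucc_iff.mpr hb)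
      have h2 := UNA_col_iff r e (f a'.castSucc) (f a.castSucc) (g b.castSucc) (g b'.castSucc)
        (false, true, i) (true, false, j)
      rw [h1] at h2
      rw [decide_eq_false (not_lt.mpr ha.le), decide_eq_true hb]
      exact h2.symm
    · have h1 := hF _ _ _ _ (Fin.castSucc_lt_castSucc_iff.mpr ha)
        (Fin.castSucc_lt_castSucc_iff.mpr hb)
      have h2 := UNA_col_iff r e (f a'.castSucc) (f a.castSucc) (g b'.castSucc) (g b.castSucc)
        (false, false, i) (true, true, j)
      rw [h1] at h2
      rw [decide_eq_false (not_lt.mpr ha.le), decide_eq_false (not_lt.mpr hb.le)]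
      exact h2.symm

end Pool.Agent.OGD
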