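import Pool.Agent.OGD.St

/-!
OGD module UNB (helper82): one type, and all structures of two linear orders.
-/

set_option autoImplicit false
set_option linter.unusedVariables false

namespace Pool.Agent.OGD

section UNB

private theorem UNB_fin : Finite Typ := by
  refine Finite.of_injective (fun τ : Typ => (τ.s, τ.t0, τ.t)) ?_
  rintro ⟨s, t0, t⟩ ⟨s', t0', t'⟩ h
  simp only [Prod.mk.injEq] at h
  obtain ⟨rfl, rfl, rfl⟩ := h
  rfl

/-- restriction to smaller boards -/
private theorem UNB_mono {τ : Typ} {n k k' : ℕ} {r : Fin n → Fin n → Prop}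
    {e : Fin k → Fin k → Fin 4 → Fin n} (h : Uni τ r k e) (hk : k' ≤ k) :
    Uni τ r k' (fun a b => e (Fin.castLE hk a) (Fin.castLE hk b)) := by
  have hlt : ∀ a b : Fin k', a < b → Fin.castLE hk a < Fin.castLE hk b := fun a b hab => hab
  have hlt' : ∀ a b : Fin k', (Fin.castLE hk a < Fin.castLE hk b) ↔ a < b := fun a b => Iff.rfl
  have hne : ∀ a b : Fin k', (Fin.castLE hk a = Fin.castLE hk b) ↔ a = b := by
    intro a b
    constructor
    · intro h
      exact Fin.castLE_injective hk h
    · intro h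
      rw [h]
  refine ⟨⟨?_, ?_, ?_, ?_, ?_⟩, ?_, ?_⟩
  · intro a a' b b' i j hi hj hab
    exact h.cel.row _ _ _ _ i j hi hj (hlt a a' hab)
  · intro a a' b b' i j hi hj hab
    exact h.cel.col _ _ _ _ i j hi hj (hlt b b' hab)
  · intro a b
    exact h.cel.inn _ _
  · intro a a' b b' i j hi hj
    exact h.cel.sep _ _ _ _ i j hi hj
  · intro a a' b b'
    rw [h.cel.phi, hne, hne]
  · intro a b i j
    exact h.in0 _ _ i j
  · intro a a' b b' i j ha hb
    rw [h.out _ _ _ _ i j (fun h' => ha ((hne _ _).1 h')) (fun h' => hb ((hne _ _).1 h'))]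
    simp only [hlt']

/-- one type for all sizes -/
private theorem UNB_one {K : ∀ n : ℕ, Set (Fin n → Fin n → Prop)}
    (h : ∀ k, ∃ n, ∃ r ∈ K n, ∃ τ e, Uni τ r k e) :
    ∃ τ, ∀ k, ∃ n, ∃ r ∈ K n, ∃ e, Uni τ r k e := by
  by_contra hcon
  push Not at hcon
  choose f hf using hcon
  have _ := UNB_fin
  obtain ⟨N, hN⟩ := (Set.finite_range f).bddAbove
  obtain ⟨n, r, hr, τ, e, hU⟩ := h N
  exact hf τ n r hr _ (UNB_mono hU (hN ⟨τ, rfl⟩))

private theorem UNB_good {τ : Typ} {n : ℕ} {r : Fin n → Fin n → Prop}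
    {e : Fin 2 → Fin 2 → Fin 4 → Fin n} (h : Uni τ r 2 e) : Good τ := by
  constructor
  · have h1 := (h.cel.phi 0 0 0 0).2 ⟨rfl, rfl⟩
    unfold Phi at h1 ⊢
    rw [h.in0, h.in0, h.in0, h.in0] at h1
    exact h1
  · intro a b h2
    have key : ∀ c : Bool, (if c = true then (0 : Fin 2) else 1) ≠ (if c = true then (1 : Fin 2) else 0)
        ∧ decide ((if c = true then (0 : Fin 2) else 1) < (if c = true then (1 : Fin 2) else 0)) = c := by
      intro c
      cases c <;> decide
    obtain ⟨ha, ha'⟩ := key a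
    obtain ⟨hb, hb'⟩ := key b
    have h1 := h.cel.phi (if a = true then (0 : Fin 2) else 1) (if a = true then (1 : Fin 2) else 0)
      (if b = true then (0 : Fin 2) else 1) (if b = true then (1 : Fin 2) else 0)
    unfold Phi at h1 h2
    rw [h.out _ _ _ _ _ _ ha hb, h.out _ _ _ _ _ _ ha hb, h.out _ _ _ _ _ _ ha hb,
      h.out _ _ _ _ _ _ ha hb, ha', hb'] at h1
    exact ha (h1.1 h2).1

open Classical in
/-- the number of the smaller elements of `P` -/
private noncomputable def UNB_rk {M : Type} (lt : M → M → Prop) (P : Finset M) (p : M) :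
    Fin (P.card + 1) :=
  ⟨(P.filter fun q => lt q p).card, Nat.lt_succ_of_le (Finset.card_filter_le _ _)⟩

private theorem UNB_rk_lt {M : Type} {lt : M → M → Prop} (hl : Lin lt) {P : Finset M} {p q : M}
    (hp : p ∈ P) : UNB_rk lt P p < UNB_rk lt P q ↔ lt p q := by
  classical
  obtain ⟨h1, h2, h3⟩ := hl
  constructor
  · intro h
    by_contra hcon
    have h4 : (P.filter fun x => lt x q) ⊆ (P.filter fun x => lt x p) := by
      intro x hx
      rw [Finset.mem_filter] at hx ⊢
      refine ⟨hx.1, ?_⟩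
      by_cases e : p = q
      · rw [e]
        exact hx.2
      · rcases h3 p q e with h5 | h5
        · exact absurd h5 hcon
        · exact h2 x q p hx.2 h5
    have h5 := Finset.card_le_card h4
    have h6 : (P.filter fun x => lt x p).card < (P.filter fun x => lt x q).card := by
      have h7 := Fin.lt_def.1 h
      unfold UNB_rk at h7
      simpa using h7
    omega
  · intro h
    have h4 : (P.filter fun x => lt x p) ⊂ (P.filter fun x => lt x q) := by
      rw [Finset.ssubset_iff_of_subset]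
      · refine ⟨p, Finset.mem_filter.2 ⟨hp, h⟩, fun h' => h1 p (Finset.mem_filter.1 h').2⟩
      · intro x hx
        rw [Finset.mem_filter] at hx ⊢
        exact ⟨hx.1, h2 x p q hx.2 h⟩
    have h5 := Finset.card_lt_card h4
    rw [Fin.lt_def]
    unfold UNB_rk
    simpa using h5

private theorem UNB_age {K : ∀ n : ℕ, Set (Fin n → Fin n → Prop)} (hK : Her K) {τ : Typ}
    (h : ∀ k, ∃ n, ∃ r ∈ K n, ∃ e, Uni τ r k e) : AgeN K τ := by
  classical
  intro M lt hl m z hz
  set P : Finset M := Finset.univ.image fun i => (z i).1 with hP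
  have hmem : ∀ i, (z i).1 ∈ P := fun i => Finset.mem_image.2 ⟨i, Finset.mem_univ i, rfl⟩
  obtain ⟨n, r, hr, e, hU⟩ := h (P.card + 1)
  set A : M → Fin (P.card + 1) := UNB_rk (lt true) P with hA
  set B : M → Fin (P.card + 1) := UNB_rk (lt false) P with hB
  have hAlt : ∀ p ∈ P, ∀ q, A p < A q ↔ lt true p q := fun p hp q => UNB_rk_lt (hl true) hp
  have hBlt : ∀ p ∈ P, ∀ q, B p < B q ↔ lt false p q := fun p hp q => UNB_rk_lt (hl false) hp
  let g : M × Fin 4 → Fin n := fun x => e (A x.1) (B x.1) x.2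
  have hmono : ∀ x y : M × Fin 4, x.1 ∈ P → y.1 ∈ P → nlt lt τ x y → g x < g y := by
    rintro ⟨p, i⟩ ⟨q, j⟩ hp hq hxy
    have hp' : p ∈ P := hp
    rcases hxy with ⟨hi, hj, h1 | ⟨h1, h2⟩⟩ | ⟨hi, hj, h1 | ⟨h1, h2⟩⟩ | ⟨hi, hj, h1⟩ | ⟨hi, hj, h1⟩
    · exact hU.cel.row _ _ _ _ i j hi hj ((hAlt p hp' q).2 h1)
    · have e1 : p = q := h1
      subst e1
      have hi' : i.1 < 2 := hi
      have hj' : j.1 < 2 := hj
      have h2' : i.1 < j.1 := h2
      have ei : i = 0 := Fin.ext (show i.1 = 0 by omega)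
      have ej : j = 1 := Fin.ext (show j.1 = 1 by omega)
      subst ei ej
      exact (hU.cel.inn _ _).1
    · exact hU.cel.col _ _ _ _ i j hi hj ((hBlt p hp' q).2 h1)
    · have e1 : p = q := h1
      subst e1
      have hi' : 2 ≤ i.1 := hi
      have hj' : 2 ≤ j.1 := hj
      have h2' : i.1 < j.1 := h2
      have hj2 := j.2
      have ei : i = 2 := Fin.ext (show i.1 = 2 by omega)
      have ej : j = 3 := Fin.ext (show j.1 = 3 by omega)
      subst ei ej
      exact (hU.cel.inn _ _).2
    · exact (hU.cel.sep _ _ _ _ i j hi hj).1 h1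
    · exact (hU.cel.sep _ _ _ _ j i hj hi).2 h1
  have hrel : ∀ x y : M × Fin 4, x.1 ∈ P → y.1 ∈ P → (r (g x) (g y) ↔ nr lt τ x y) := by
    rintro ⟨p, i⟩ ⟨q, j⟩ hp hq
    have hp' : p ∈ P := hp
    have hq' : q ∈ P := hq
    by_cases e1 : p = q
    · subst e1
      have h1 : r (g (p, i)) (g (p, j)) ↔ τ.t0 i j = true := hU.in0 _ _ i j
      rw [h1]
      constructor
      · intro h2
        exact Or.inl ⟨rfl, h2⟩
      · rintro (⟨-, h2⟩ | ⟨h2, -⟩)
        · exact h2
        · exact absurd rfl h2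
    · have hAne : A p ≠ A q := by
        intro h2
        rcases (hl true).2.2 p q e1 with h3 | h3
        · exact absurd h2 (ne_of_lt ((hAlt p hp' q).2 h3))
        · exact absurd h2.symm (ne_of_lt ((hAlt q hq' p).2 h3))
      have hBne : B p ≠ B q := by
        intro h2
        rcases (hl false).2.2 p q e1 with h3 | h3
        · exact absurd h2 (ne_of_lt ((hBlt p hp' q).2 h3))
        · exact absurd h2.symm (ne_of_lt ((hBlt q hq' p).2 h3))
      have h1 : r (g (p, i)) (g (q, j)) ↔
          τ.t (decide (A p < A q)) (decide (B p < B q)) i j = true :=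
        hU.out _ _ _ _ i j hAne hBne
      rw [h1]
      constructor
      · intro h2
        refine Or.inr ⟨e1, decide (A p < A q), decide (B p < B q), ?_, ?_, h2⟩
        · rw [decide_eq_true_iff]
          exact hAlt p hp' q
        · rw [decide_eq_true_iff]
          exact hBlt p hp' q
      · rintro (⟨h2, -⟩ | ⟨-, a, b, ha, hb, h2⟩)
        · exact absurd h2 e1
        · have ea : decide (A p < A q) = a := by
            rw [Bool.eq_iff_iff, decide_eq_true_iff, ha]
            exact hAlt p hp' q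
          have eb : decide (B p < B q) = b := by
            rw [Bool.eq_iff_iff, decide_eq_true_iff, hb]
            exact hBlt p hp' q
          rw [ea, eb]
          exact h2
  have h1 := hK m n (fun i => g (z i)) (fun i j hij => hmono _ _ (hmem i) (hmem j) (hz i j hij)) r hr
  have h2 : (fun i j => r (g (z i)) (g (z j))) = fun i j => nr lt τ (z i) (z j) := by
    funext i j
    exact propext (hrel _ _ (hmem i) (hmem j))
  rw [← h2]
  exact h1

end UNB

/-- [UNB] -/
theorem thm_UNB : St_UNB := by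
  intro K hK h
  obtain ⟨τ, hτ⟩ := UNB_one h
  obtain ⟨n, r, -, e, hU⟩ := hτ 2
  exact ⟨τ, UNB_good hU, UNB_age hK hτ⟩

end Pool.Agent.OGD
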