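import Pool.Agent.OGD.All
import Pool.Agent.OGD.Ren
import Pool.Agent.OGD.SEP
import Pool.Agent.OGD.CEA
import Pool.Agent.OGD.CEL
import Pool.Agent.OGD.RAM
import Pool.Agent.OGD.UNA
import Pool.Agent.OGD.UNB
import Pool.Agent.OGD.GRW
import Pool.Agent.OGD.FRM
import Pool.Agent.OGD.TRN
import Pool.Agent.OGD.COE
import Pool.Agent.OGD.REC
import Pool.Agent.OGD.FUN
import Pool.Agent.OGD.DMS
import Pool.Agent.OGD.SHQ
import Pool.Agent.OGD.OGA

/-!
# Vaught's conjecture for hereditary classes of ordered graphs: a dichotomy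

A hereditary class `K` of finite ordered graphs (or digraphs) is given by its members on `{0, ..., n - 1}`
with the natural order.  We consider all first-order theories of ordered digraphs whose finite
suborders belong to `K`, with arbitrarily many unary predicates (colours).

* If `K` has bounded grid rank (equivalently, bounded twin-width), then Vaught's conjecture holds for
  these theories.
* In particular it holds if `K` has less than `n!` members with `4 n` elements, for one `n`; so it
  holds for classes of at most exponential growth.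
* If `K` has unbounded grid rank then Vaught's conjecture for these theories is equivalent to Vaught's
  conjecture for all first-order theories in countable languages (the frozen statement `S14759`).
-/

set_option autoImplicit false

namespace Pool.Agent.OGD.ResO

open Set FirstOrder

/-! ### Hereditary classes of finite ordered digraphs -/

/-- A class of finite ordered digraphs: for each `n` a set of binary relations on `{0, ..., n - 1}`,
which is ordered by the natural order. -/
abbrev OrderedDigraphs : Type := (n : ℕ) → Set (Fin n → Fin n → Prop)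

/-- `K` is closed under taking suborders (with the induced relation). -/
def Hereditary (K : OrderedDigraphs) : Prop :=
  ∀ (m n : ℕ) (f : Fin m → Fin n), StrictMono f → ∀ r ∈ K n, (fun i j => r (f i) (f j)) ∈ K m

/-- A rank-`k` division: there are sets `I 0 < ... < I (k - 1)` and `J 0 < ... < J (k - 1)` such that
every `J b` contains `k` elements whose traces `{x ∈ I a | r x y}` are pairwise different, for all
`a`. -/
def HasDivision {n : ℕ} (r : Fin n → Fin n → Prop) (k : ℕ) : Prop :=
  ∃ I J : Fin k → Set (Fin n),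
    (∀ a b, a < b → ∀ x ∈ I a, ∀ y ∈ I b, x < y) ∧ (∀ a b, a < b → ∀ x ∈ J a, ∀ y ∈ J b, x < y) ∧
    ∀ a b, ∃ y : Fin k → Fin n, (∀ i, y i ∈ J b) ∧
      ∀ i j, i ≠ j → ∃ x ∈ I a, ¬ (r x (y i) ↔ r x (y j))

/-- `K` has bounded grid rank: for some `k` no member of `K` has a rank-`k` division. -/
def BoundedGridRank (K : OrderedDigraphs) : Prop :=
  ∃ k, ∀ n, ∀ r ∈ K n, ¬ HasDivision r k

/-! ### Structures and Vaught's conjecture -/

/-- Two binary relation symbols, unary relation symbols indexed by `ι`. -/
inductive Sym (ι : Type) : ℕ → Type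
  | color (i : ι) : Sym ι 1
  | lt : Sym ι 2
  | adj : Sym ι 2

/-- The language of ordered digraphs with colours. -/
def Lang (ι : Type) : FirstOrder.Language.{0, 0} := ⟨fun _ => Empty, Sym ι⟩

/-- The relation of the symbol `lt` is a strict linear order of `ℕ`, and all finite suborders with the
relation of the symbol `adj` belong to `K`. -/
def InClass {ι : Type} (K : OrderedDigraphs) (S : (Lang ι).Structure ℕ) : Prop :=
  (∀ x, ¬ S.RelMap (n := 2) (Sym.lt : Sym ι 2) ![x, x]) ∧
  (∀ x y z, S.RelMap (n := 2) (Sym.lt : Sym ι 2) ![x, y] →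
    S.RelMap (n := 2) (Sym.lt : Sym ι 2) ![y, z] → S.RelMap (n := 2) (Sym.lt : Sym ι 2) ![x, z]) ∧
  (∀ x y, x ≠ y → S.RelMap (n := 2) (Sym.lt : Sym ι 2) ![x, y] ∨
    S.RelMap (n := 2) (Sym.lt : Sym ι 2) ![y, x]) ∧
  ∀ (m : ℕ) (z : Fin m → ℕ), (∀ i j, i < j → S.RelMap (n := 2) (Sym.lt : Sym ι 2) ![z i, z j]) →
    (fun i j => S.RelMap (n := 2) (Sym.adj : Sym ι 2) ![z i, z j]) ∈ K m

/-- The dichotomy for a theory (the conclusion of `S14759`): its models on `ℕ` fall into countably
many isomorphism classes, or a continuous map from Cantor space to these models has pairwise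
nonisomorphic values. -/
def Dich (L : FirstOrder.Language.{0, 0}) (T : L.Theory) : Prop :=
  (∃ g : ℕ → L.Structure ℕ, ∀ S : L.Structure ℕ,
      @FirstOrder.Language.Theory.Model L ℕ S T →
        ∃ n : ℕ, Nonempty (@FirstOrder.Language.Equiv L ℕ ℕ S (g n))) ∨
  (∃ f : (ℕ → Bool) → L.Structure ℕ,
      (∀ x : ℕ → Bool, @FirstOrder.Language.Theory.Model L ℕ (f x) T) ∧
      (∀ x y : ℕ → Bool,
          Nonempty (@FirstOrder.Language.Equiv L ℕ ℕ (f x) (f y)) → x = y) ∧
      (∀ (n : ℕ) (R : L.Relations n) (a : Fin n → ℕ),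
          IsClopen {x : ℕ → Bool | @FirstOrder.Language.Structure.RelMap L ℕ (f x) n R a}) ∧
      (∀ (n : ℕ) (F : L.Functions n) (a : Fin n → ℕ) (b : ℕ),
          IsOpen {x : ℕ → Bool | @FirstOrder.Language.Structure.funMap L ℕ (f x) n F a = b}))

/-- Vaught's conjecture for all first-order theories in countable languages (the frozen statement
`S14759`). -/
def FullVC : Prop :=
  ∀ (L : FirstOrder.Language.{0, 0}), Countable L.Symbols → ∀ (T : L.Theory), Dich L T

/-- Vaught's conjecture for `K`: the dichotomy for all first-order theories of ordered digraphs with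
countably many colours whose models on `ℕ` are in the class. -/
def VC (K : OrderedDigraphs) : Prop :=
  ∀ (ι : Type), Countable ι → ∀ T : (Lang ι).Theory,
    (∀ S : (Lang ι).Structure ℕ, @FirstOrder.Language.Theory.Model (Lang ι) ℕ S T → InClass K S) →
    Dich (Lang ι) T

/-! ## Proof -/

/-- the names of the symbols -/
def names (ι : Type) : ∀ n, (Lang ι).Relations n ≃ (PMC.LP ι).Relations n := fun n =>
  { toFun := fun R => match n, R with
      | _, Sym.color i => PMC.Sy.un i
      | _, Sym.lt => PMC.Sy.lt true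
      | _, Sym.adj => PMC.Sy.lt false
    invFun := fun R => match n, R with
      | _, PMC.Sy.un i => Sym.color i
      | _, PMC.Sy.lt true => Sym.lt
      | _, PMC.Sy.lt false => Sym.adj
    left_inv := by
      intro R
      cases R <;> rfl
    right_inv := by
      intro R
      cases R with
      | un i => rfl
      | lt b => cases b <;> rfl }

theorem lang_rel (ι : Type) : ∀ n, IsEmpty ((Lang ι).Functions n) := fun n => ⟨fun x => Empty.elim x⟩

theorem lp_rel (ι : Type) : ∀ n, IsEmpty ((PMC.LP ι).Functions n) :=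
  fun n => ⟨fun x => Empty.elim x⟩

open VPF (ModF) in
theorem dich_iff {L : FirstOrder.Language.{0, 0}} (hF : ∀ n, IsEmpty (L.Functions n))
    (T : L.Theory) : Dich L T ↔ Pool.Agent.Helper6.Str.CtblK (ModF T) ∨
      Pool.Agent.Helper6.Str.PerfK (ModF T) :=
  OGD.dich_iff hF T

theorem vc_iff (K : OrderedDigraphs) : VC K ↔ OGD.VCK K := by
  constructor
  · intro h ι hι T hT
    refine OGD.Ren_dich (lp_rel ι) (lang_rel ι) (fun n => (names ι n).symm) T
      ((dich_iff (lang_rel ι) _).1 (h ι hι _ fun S hS => ?_))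
    have h1 := hT _ ((OGD.Ren_model (lp_rel ι) (fun n => (names ι n).symm) T S).1 hS)
    exact ⟨h1.1.1, h1.1.2.1, h1.1.2.2, h1.2⟩
  · intro h ι hι T hT
    refine (dich_iff (lang_rel ι) T).2 (OGD.Ren_dich (lang_rel ι) (lp_rel ι) (names ι) T
      (h ι hι _ fun S hS => ?_))
    have h1 := hT _ ((OGD.Ren_model (lang_rel ι) (names ι) T S).1 hS)
    exact ⟨⟨h1.1, h1.2.1, h1.2.2.1⟩, h1.2.2.2⟩

theorem result_of (hT4 : OGD.T4) (K : OrderedDigraphs) (hK : Hereditary K) :
    (BoundedGridRank K → VC K) ∧
    (∀ n : ℕ, (K (4 * n)).ncard < n.factorial → BoundedGridRank K) ∧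
    (¬ BoundedGridRank K → (VC K ↔ FullVC)) := by
  have hCEL := OGD.thm_CEL OGD.thm_CEA
  have hUNA := OGD.thm_UNA OGD.thm_RAM
  refine ⟨fun hb => (vc_iff K).2 (OGD.thm_OGA hT4 K hb), fun n hn =>
    OGD.bdd_of OGD.thm_SEP hCEL hUNA OGD.thm_UNB OGD.thm_GRW K hK n hn,
    fun hb => ⟨fun h => ?_, fun h => ?_⟩⟩
  · exact OGD.full_of OGD.thm_SEP hCEL hUNA OGD.thm_UNB OGD.thm_FRM OGD.thm_TRN OGD.thm_COE
      OGD.thm_REC OGD.thm_FUN OGD.thm_DMS OGD.thm_SHQ K hK hb ((vc_iff K).1 h)
  · exact (vc_iff K).2 (OGD.vck_of_full K h)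

end Pool.Agent.OGD.ResO
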